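import Pool.Agent.H79.SP.Fin

set_option autoImplicit false

/-!
# The count of the split primes, for all sizes
-/

namespace Pool.Agent.H79.SP

open Finset Pool.Agent.H99.PC

open Classical in
/-- The split primes up to `N` which divide a number with the two congruences. -/
theorem all : ∃ C : ℝ, 0 < C ∧ ∀ N : ℕ, 3 ≤ N →
    ({p : ℕ | p ≤ N ∧ p.Prime ∧ (p % 5 = 1 ∨ p % 5 = 4) ∧
      ∃ n : ℕ, Odd n ∧ 2 ^ (n - 1) ≡ 1 [MOD n] ∧ n ∣ Nat.fib (n + 1) ∧ p ∣ n}.ncard : ℝ) ≤
      C * N * (Real.log (Real.log N)) ^ 5 /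
        (Real.log N) ^ (2 - (1 + Real.log (Real.log 2)) / Real.log 2) := by
  obtain ⟨C, t0, hC, ht0, h⟩ := count
  have h31 : 1 < Real.log 3 := by
    rw [Real.lt_log_iff_exp_lt (by norm_num)]
    have := Real.exp_one_lt_d9
    linarith
  set c0 := Real.log (Real.log 3) with hc0
  have hc0' : 0 < c0 := Real.log_pos h31
  set D := (c0 ^ 5 * Real.exp (-dl * t0))⁻¹ with hD
  have hD0 : 0 < D := by positivity
  refine ⟨C + D, by positivity, ?_⟩
  intro N hN
  have hN0 : (0 : ℝ) < N := by positivity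
  have hlog : 0 < Real.log N := Real.log_pos (by exact_mod_cast (by omega : 1 < N))
  set A := (Finset.range (N + 1)).filter (fun p : ℕ => p.Prime ∧ (p % 5 = 1 ∨ p % 5 = 4) ∧
      ∃ n : ℕ, Odd n ∧ 2 ^ (n - 1) ≡ 1 [MOD n] ∧ n ∣ Nat.fib (n + 1) ∧ p ∣ n) with hA
  have h1 : {p : ℕ | p ≤ N ∧ p.Prime ∧ (p % 5 = 1 ∨ p % 5 = 4) ∧
      ∃ n : ℕ, Odd n ∧ 2 ^ (n - 1) ≡ 1 [MOD n] ∧ n ∣ Nat.fib (n + 1) ∧ p ∣ n} =
      (A : Set ℕ) := by
    ext p
    rw [hA, Finset.mem_coe, Finset.mem_filter, Finset.mem_range, Nat.lt_succ_iff]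
    rfl
  rw [h1, Set.ncard_coe_finset]
  have hmem : ∀ p ∈ A, p ≤ N ∧ p.Prime ∧ 0 < ko p ∧ 0 < zr p ∧
      ko p * zr p ∣ 2 * (p - 1) ∧ p ∣ 2 ^ ko p - 1 ∧ p ∣ Nat.fib (zr p) := by
    intro p hp
    rw [hA, Finset.mem_filter, Finset.mem_range] at hp
    obtain ⟨h2, h3, h4, n, h5, h6, h7, h8⟩ := hp
    exact ⟨by omega, h3, orders h3 h4 h5 h6 h7 h8⟩
  set t := Real.log (Real.log N) with ht
  have htc : c0 ≤ t := by
    refine Real.log_le_log (by linarith) (Real.log_le_log (by norm_num) ?_)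
    exact_mod_cast hN
  have ht0' : 0 < t := by linarith
  have hpow : (Real.log N) ^ (2 - (1 + Real.log (Real.log 2)) / Real.log 2) =
      Real.exp (dl * t) := by
    rw [Real.rpow_def_of_pos hlog, ← ht, mul_comm]
    rfl
  have hmain : (A.card : ℝ) ≤ (C + D) * N * (t ^ 5 * Real.exp (-dl * t)) := by
    rcases le_or_gt t0 t with htt | htt
    · refine (h N t rfl htt A hmem).trans ?_
      have h5 : C ≤ C + D := by linarith
      gcongr
    · have h2 : (A.card : ℝ) ≤ N := by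
        have h3 : A ⊆ Finset.Ioc 0 N := by
          intro p hp
          obtain ⟨h4, h5, -⟩ := hmem p hp
          exact Finset.mem_Ioc.2 ⟨h5.pos, h4⟩
        have h4 := Finset.card_le_card h3
        rw [Nat.card_Ioc, Nat.sub_zero] at h4
        exact_mod_cast h4
      have h6 : 1 ≤ D * (t ^ 5 * Real.exp (-dl * t)) := by
        rw [hD, inv_mul_eq_div, one_le_div (by positivity)]
        have h7 : Real.exp (-dl * t0) ≤ Real.exp (-dl * t) := by
          refine Real.exp_le_exp.2 ?_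
          have := mul_le_mul_of_nonneg_left htt.le dl_nonneg
          linarith
        gcongr
      calc (A.card : ℝ) ≤ N := h2
        _ ≤ N * (D * (t ^ 5 * Real.exp (-dl * t))) := le_mul_of_one_le_right hN0.le h6
        _ ≤ N * (D * (t ^ 5 * Real.exp (-dl * t))) + C * N * (t ^ 5 * Real.exp (-dl * t)) :=
            le_add_of_nonneg_right (by positivity)
        _ = _ := by ring
  refine hmain.trans (le_of_eq ?_)
  rw [hpow, neg_mul, Real.exp_neg, div_eq_mul_inv]
  ring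

end Pool.Agent.H79.SP
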