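import Pool.Agent.H99.PC.Zr

set_option autoImplicit false

/-!
# The two orders of a split prime which divides a Selfridge number
-/

namespace Pool.Agent.H79.SP

open Pool.Agent.H99.PC ArithmeticFunction

private theorem sq5 {p : ℕ} [Fact p.Prime] (h2 : p ≠ 2) (h5 : p % 5 = 1 ∨ p % 5 = 4) :
    ∃ s : ZMod p, s * s = 5 := by
  have : Fact (Nat.Prime 5) := ⟨by norm_num⟩
  have h1 := ZMod.exists_sq_eq_prime_iff_of_mod_four_eq_one (p := 5) (q := p) (by norm_num) h2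
  have h3 : IsSquare ((p : ℕ) : ZMod 5) := by
    have h4 : ((p : ℕ) : ZMod 5) = ((p % 5 : ℕ) : ZMod 5) := by rw [ZMod.natCast_mod]
    rw [h4]
    rcases h5 with h | h
    · rw [h]; exact ⟨1, by norm_num⟩
    · rw [h]; exact ⟨2, by norm_num⟩
  have h6 : IsSquare ((5 : ℕ) : ZMod p) := h1.1 h3
  obtain ⟨s, hs⟩ := h6
  exact ⟨s, by rw [← hs]; norm_cast⟩

/-- a split prime divides the Fibonacci number of index `p - 1` -/
theorem dvd_fib {p : ℕ} (hp : p.Prime) (h5 : p % 5 = 1 ∨ p % 5 = 4) : p ∣ Nat.fib (p - 1) := by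
  have : Fact p.Prime := ⟨hp⟩
  have hp2 : p ≠ 2 := by rintro rfl; omega
  obtain ⟨s, hs⟩ := sq5 hp2 h5
  have h20 : (2 : ZMod p) ≠ 0 := by
    intro h
    have h1 : ((2 : ℕ) : ZMod p) = 0 := by exact_mod_cast h
    rw [ZMod.natCast_eq_zero_iff] at h1
    exact hp2 ((Nat.prime_dvd_prime_iff_eq hp Nat.prime_two).1 h1)
  have h50 : (5 : ZMod p) ≠ 0 := by
    intro h
    have h1 : ((5 : ℕ) : ZMod p) = 0 := by exact_mod_cast h
    rw [ZMod.natCast_eq_zero_iff] at h1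
    have h2 := (Nat.prime_dvd_prime_iff_eq hp (by norm_num)).1 h1
    rw [h2] at h5
    omega
  have hs0 : s ≠ 0 := by
    rintro rfl
    rw [mul_zero] at hs
    exact h50 hs.symm
  obtain ⟨u, hu⟩ : ∃ u : ZMod p, u * 2 = 1 := ⟨2⁻¹, inv_mul_cancel₀ h20⟩
  set φ := u * (1 + s) with hφ
  set ψ := u * (1 - s) with hψ
  have hu4 : u * u * 4 = 1 := by
    linear_combination (u * 2 + 1) * hu
  have hφ2 : φ * φ = φ + 1 := by
    rw [hφ]
    linear_combination u * u * hs + (1 + s) * u * hu + hu4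
  have hψ2 : ψ * ψ = ψ + 1 := by
    rw [hψ]
    linear_combination u * u * hs + (1 - s) * u * hu + hu4
  have hfib : ∀ n : ℕ, s * (Nat.fib n : ZMod p) = φ ^ n - ψ ^ n ∧
      s * (Nat.fib (n + 1) : ZMod p) = φ ^ (n + 1) - ψ ^ (n + 1) := by
    intro n
    induction n with
    | zero =>
      refine ⟨by simp, ?_⟩
      simp only [zero_add, Nat.fib_one, Nat.cast_one, pow_one]
      rw [hφ, hψ]
      linear_combination -s * hu
    | succ n ih =>
      refine ⟨ih.2, ?_⟩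
      rw [Nat.fib_add_two]
      push_cast
      have e1 : φ ^ (n + 1 + 1) = φ ^ n * (φ * φ) := by ring
      have e2 : ψ ^ (n + 1 + 1) = ψ ^ n * (ψ * ψ) := by ring
      rw [e1, e2, hφ2, hψ2]
      linear_combination ih.1 + ih.2
  have hφ0 : φ ≠ 0 := by
    intro h
    rw [h] at hφ2
    simp at hφ2
  have hψ0 : ψ ≠ 0 := by
    intro h
    rw [h] at hψ2
    simp at hψ2
  have h1 := (hfib (p - 1)).1
  rw [ZMod.pow_card_sub_one_eq_one hφ0, ZMod.pow_card_sub_one_eq_one hψ0, sub_self] at h1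
  rcases mul_eq_zero.1 h1 with h2 | h2
  · exact absurd h2 hs0
  · rwa [ZMod.natCast_eq_zero_iff] at h2

/-- **The orders.** -/
theorem orders {p n : ℕ} (hp : p.Prime) (h5 : p % 5 = 1 ∨ p % 5 = 4) (hn : Odd n)
    (h2n : 2 ^ (n - 1) ≡ 1 [MOD n]) (hfn : n ∣ Nat.fib (n + 1)) (hpn : p ∣ n) :
    0 < ko p ∧ 0 < zr p ∧ ko p * zr p ∣ 2 * (p - 1) ∧ p ∣ 2 ^ ko p - 1 ∧ p ∣ Nat.fib (zr p) := by
  have : Fact p.Prime := ⟨hp⟩
  have hp2 : p ≠ 2 := by rintro rfl; omega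
  have h20 : (2 : ZMod p) ≠ 0 := by
    intro h
    have h1 : ((2 : ℕ) : ZMod p) = 0 := by exact_mod_cast h
    rw [ZMod.natCast_eq_zero_iff] at h1
    exact hp2 ((Nat.prime_dvd_prime_iff_eq hp Nat.prime_two).1 h1)
  have hk1 : ko p ∣ p - 1 := orderOf_dvd_of_pow_eq_one (ZMod.pow_card_sub_one_eq_one h20)
  have hk2 : ko p ∣ n - 1 := by
    refine orderOf_dvd_of_pow_eq_one ?_
    have h1 := h2n.of_dvd hpn
    have h2 := (ZMod.natCast_eq_natCast_iff _ _ _).2 h1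
    push_cast at h2
    exact h2
  have hz1 : zr p ∣ p - 1 := (zr_spec p hp _).2 (dvd_fib hp h5)
  have hz2 : zr p ∣ n + 1 := (zr_spec p hp _).2 (hpn.trans hfn)
  have hp1 : 0 < p - 1 := by have := hp.two_le; omega
  have hg : Nat.gcd (ko p) (zr p) ∣ 2 := by
    have h1 : Nat.gcd (ko p) (zr p) ∣ n - 1 := (Nat.gcd_dvd_left _ _).trans hk2
    have h2 : Nat.gcd (ko p) (zr p) ∣ n + 1 := (Nat.gcd_dvd_right _ _).trans hz2
    have h3 := (Nat.dvd_sub h2 h1)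
    have hn0 : 0 < n := hn.pos
    have h4 : n + 1 - (n - 1) = 2 := by omega
    rwa [h4] at h3
  have hk0 : 0 < ko p := Nat.pos_of_dvd_of_pos hk1 hp1
  refine ⟨hk0, zr_pos p hp, ?_, ?_, (zr_spec p hp _).1 dvd_rfl⟩
  · rw [← Nat.gcd_mul_lcm]
    exact mul_dvd_mul hg (Nat.lcm_dvd hk1 hz1)
  · have h1 : (2 : ZMod p) ^ ko p = 1 := pow_orderOf_eq_one _
    have h2 : ((2 ^ ko p - 1 : ℕ) : ZMod p) = 0 := by
      rw [Nat.cast_sub Nat.one_le_two_pow]
      push_cast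
      rw [h1, sub_self]
    rwa [ZMod.natCast_eq_zero_iff] at h2

end Pool.Agent.H79.SP
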