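import Mathlib

set_option autoImplicit false

/-!
# Counting primes above `y` by a small modulus
-/

namespace Pool.Agent.H79.SP

/-- for each modulus `d` the primes above `y` which divide `M d ≤ 2 ^ d` number at most `d / log y` -/
theorem cnt (M : ℕ → ℕ) (hM0 : ∀ d, 0 < d → 0 < M d) (hM : ∀ d, M d ≤ 2 ^ d)
    (A D : Finset ℕ) (g : ℕ → ℕ) (y d0 : ℝ) (hy : 1 < y)
    (hA : ∀ p ∈ A, p.Prime ∧ y < (p : ℝ) ∧ g p ∈ D ∧ p ∣ M (g p))
    (hD : ∀ d ∈ D, 0 < d ∧ (d : ℝ) ≤ d0) :
    (A.card : ℝ) * Real.log y ≤ (D.card : ℝ) * d0 := by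
  have h1 : A.card = ∑ d ∈ D, (A.filter (fun p => g p = d)).card :=
    Finset.card_eq_sum_card_fiberwise (fun p hp => (hA p hp).2.2.1)
  have hlog : 0 < Real.log y := Real.log_pos hy
  have h2 : ∀ d ∈ D, ((A.filter (fun p => g p = d)).card : ℝ) * Real.log y ≤ d0 := by
    intro d hd
    obtain ⟨hd1, hd2⟩ := hD d hd
    have h3 : (∏ p ∈ A.filter (fun p => g p = d), p) ∣ M d := by
      refine Finset.prod_primes_dvd _ ?_ ?_
      · intro p hp
        exact ((hA p (Finset.mem_filter.1 hp).1).1).prime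
      · intro p hp
        obtain ⟨hp1, hp2⟩ := Finset.mem_filter.1 hp
        have := (hA p hp1).2.2.2
        rwa [hp2] at this
    have h4 : (∏ p ∈ A.filter (fun p => g p = d), p) ≤ 2 ^ d :=
      (Nat.le_of_dvd (hM0 d hd1) h3).trans (hM d)
    have h5 : (∏ p ∈ A.filter (fun p => g p = d), (p : ℝ)) ≤ (2 : ℝ) ^ d := by
      have h9 := (Nat.cast_le (α := ℝ)).2 h4
      rw [Nat.cast_prod, Nat.cast_pow, Nat.cast_ofNat] at h9
      exact h9
    have h6 : y ^ (A.filter (fun p => g p = d)).card ≤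
        ∏ p ∈ A.filter (fun p => g p = d), (p : ℝ) := by
      rw [← Finset.prod_const]
      refine Finset.prod_le_prod (fun p _ => by linarith) ?_
      intro p hp
      exact ((hA p (Finset.mem_filter.1 hp).1).2.1).le
    have h7 := Real.log_le_log (by positivity) (h6.trans h5)
    rw [Real.log_pow, Real.log_pow] at h7
    have h8 : (d : ℝ) * Real.log 2 ≤ (d : ℝ) * 1 := by
      refine mul_le_mul_of_nonneg_left ?_ (by positivity)
      have := Real.log_two_lt_d9
      linarith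
    linarith
  rw [h1]
  push_cast
  rw [Finset.sum_mul]
  calc ∑ d ∈ D, ((A.filter (fun p => g p = d)).card : ℝ) * Real.log y
      ≤ ∑ _d ∈ D, d0 := Finset.sum_le_sum h2
    _ = (D.card : ℝ) * d0 := by rw [Finset.sum_const, nsmul_eq_mul]

/-- the powers of two -/
theorem two_pow_sub (d : ℕ) (hd : 0 < d) : 0 < 2 ^ d - 1 := by
  have : 1 < 2 ^ d := Nat.one_lt_two_pow hd.ne'
  omega

/-- the Fibonacci numbers grow at most like the powers of two -/
theorem fib_le (d : ℕ) : Nat.fib d ≤ 2 ^ d ∧ Nat.fib (d + 1) ≤ 2 ^ (d + 1) := by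
  induction d with
  | zero => exact ⟨by simp, by simp⟩
  | succ d ih =>
    refine ⟨ih.2, ?_⟩
    rw [Nat.fib_add_two]
    have h1 : 2 ^ (d + 1 + 1) = 2 ^ (d + 1) + 2 ^ (d + 1) := by ring
    have h2 : 2 ^ (d + 1) = 2 ^ d + 2 ^ d := by ring
    rw [h1]
    have := ih.1
    have := ih.2
    omega

end Pool.Agent.H79.SP
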