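import Pool.Agent.H79.SP.Hall

set_option autoImplicit false

/-!
# Integers with few prime factors and a divisor in a window
-/

namespace Pool.Agent.H79.SP

open Finset ArithmeticFunction

/-- the sum of `w ^ Ω(d) / d` over a window -/
private theorem win1 : ∃ K : ℝ, 0 < K ∧ ∀ (w u s : ℝ), 0 ≤ w → w ≤ 1 → 4 ≤ u →
    s ≤ Real.log (Real.log u) → ∀ J : ℕ,
    ∑ d ∈ Ioc ⌊u⌋₊ ⌊2 ^ J * u⌋₊, hf w d / (d : ℝ) ≤ J * (2 * K * Real.exp (-(1 - w) * s)) := by
  obtain ⟨K, hK, h⟩ := hall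
  refine ⟨K, hK, ?_⟩
  intro w u s hw hw1 hu hs J
  induction J with
  | zero => simp
  | succ J ih =>
    have hu0 : 0 < u := by linarith
    have hlogu : 1 ≤ Real.log u := by
      rw [Real.le_log_iff_exp_le hu0]
      have := Real.exp_one_lt_d9
      linarith
    have h2 : (1 : ℝ) ≤ 2 ^ J := one_le_pow₀ (by norm_num)
    have h3 : (0 : ℝ) < 2 ^ J * u := by positivity
    have hle1 : ⌊u⌋₊ ≤ ⌊2 ^ J * u⌋₊ := Nat.floor_le_floor (le_mul_of_one_le_left hu0.le h2)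
    have hpow : (2 : ℝ) ^ (J + 1) * u = 2 * (2 ^ J * u) := by ring
    have hle2 : ⌊2 ^ J * u⌋₊ ≤ ⌊2 ^ (J + 1) * u⌋₊ := by
      rw [hpow]
      exact Nat.floor_le_floor (by linarith)
    rw [← sum_Ioc_consecutive _ hle1 hle2]
    set R := ⌊2 ^ (J + 1) * u⌋₊ with hR
    have hRle : (R : ℝ) ≤ 2 * (2 ^ J * u) := by
      rw [← hpow]; exact Nat.floor_le (by positivity)
    have huR : u ≤ (R : ℝ) := by
      have h4 := Nat.lt_floor_add_one (2 ^ (J + 1) * u)
      rw [← hR, hpow] at h4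
      nlinarith
    have hR3 : 3 ≤ R := by
      have : (3 : ℝ) ≤ R := by linarith
      exact_mod_cast this
    have h5 : ∑ d ∈ Ioc ⌊2 ^ J * u⌋₊ R, hf w d / (d : ℝ) ≤
        2 * K * Real.exp (-(1 - w) * s) := by
      have h6 : ∑ d ∈ Ioc ⌊2 ^ J * u⌋₊ R, hf w d / (d : ℝ) ≤
          ∑ d ∈ Ioc ⌊2 ^ J * u⌋₊ R, hf w d / (2 ^ J * u) := by
        refine sum_le_sum fun d hd => ?_
        rw [mem_Ioc] at hd
        have h7 : 2 ^ J * u < (d : ℝ) := Nat.lt_of_floor_lt hd.1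
        exact div_le_div_of_nonneg_left (hf_nonneg hw d) h3 h7.le
      refine h6.trans ?_
      rw [← sum_div, div_le_iff₀ h3]
      have h8 : ∑ d ∈ Ioc ⌊2 ^ J * u⌋₊ R, hf w d ≤ ∑ d ∈ Ioc 0 R, hf w d := by
        refine sum_le_sum_of_subset_of_nonneg ?_ fun d _ _ => hf_nonneg hw d
        exact Ioc_subset_Ioc_left (Nat.zero_le _)
      have h9 := h w R hw hw1 hR3
      have h10 : s ≤ Real.log (Real.log (R : ℝ)) :=
        hs.trans (Real.log_le_log (by linarith) (Real.log_le_log hu0 huR))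
      have h11 : Real.exp (-(1 - w) * Real.log (Real.log (R : ℝ))) ≤
          Real.exp (-(1 - w) * s) := by
        refine Real.exp_le_exp.2 ?_
        have := mul_le_mul_of_nonneg_left h10 (by linarith : 0 ≤ 1 - w)
        linarith
      calc ∑ d ∈ Ioc ⌊2 ^ J * u⌋₊ R, hf w d
          ≤ K * R * Real.exp (-(1 - w) * Real.log (Real.log (R : ℝ))) := h8.trans h9
        _ ≤ K * (2 * (2 ^ J * u)) * Real.exp (-(1 - w) * s) := by gcongr
        _ = _ := by ring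
    push_cast
    linarith

/-- **Integers with few prime factors and a divisor in a window.** -/
theorem win : ∃ K : ℝ, 0 < K ∧ ∀ (N : ℕ) (t : ℝ), 21 ≤ N → t = Real.log (Real.log N) →
    ∀ (w u : ℝ) (J k : ℕ), 0 < w → w ≤ 1 → 4 ≤ u → t - 2 ≤ Real.log (Real.log u) → ∀ A : Finset ℕ,
    (∀ a ∈ A, 0 < a ∧ a ≤ N ∧ cardFactors a ≤ k ∧
      ∃ d : ℕ, d ∣ 2 * a ∧ u < d ∧ (d : ℝ) ≤ 2 ^ J * u) →
    ∑ a ∈ A, 1 / (a : ℝ) ≤ K * w⁻¹ ^ (k + 1) * J * Real.exp ((2 * w - 1) * t) := by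
  obtain ⟨K, hK, hwin⟩ := win1
  obtain ⟨K', hK', hgeo⟩ := geo
  refine ⟨2 * (2 * K) * K' * Real.exp 2, by positivity, ?_⟩
  intro N t hN ht w u J k hw hw1 hu hs A hA
  classical
  have hN0 : (0 : ℝ) < N := by positivity
  have hlog3 : 1 ≤ Real.log N := by
    rw [Real.le_log_iff_exp_le hN0]
    have h1 := Real.exp_one_lt_d9
    have h2 : (21 : ℝ) ≤ N := by exact_mod_cast hN
    linarith
  have hu0 : 0 < u := by linarith
  choose! d hd1 hd2 hd3 using fun a ha => (hA a ha).2.2.2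
  set P := (Ioc ⌊u⌋₊ ⌊2 ^ J * u⌋₊) ×ˢ (Icc 1 (2 * N)) with hP
  set φ : ℕ → ℕ × ℕ := fun a => (d a, 2 * a / d a) with hφ
  set g : ℕ × ℕ → ℝ := fun x => 2 * w⁻¹ ^ (k + 1) *
    ((hf w x.1 / (x.1 : ℝ)) * (w ^ cardFactors x.2 / (x.2 : ℝ))) with hg
  have hg0 : ∀ x, 0 ≤ g x := by
    intro x
    rw [hg]
    have := hf_nonneg hw.le x.1
    positivity
  have hdpos : ∀ a ∈ A, 0 < d a := by
    intro a ha
    have h1 := hd2 a ha
    have h2 : (0 : ℝ) < d a := by linarith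
    exact_mod_cast h2
  have hinj : Set.InjOn φ (A : Set ℕ) := by
    intro a ha b hb hab
    have h1 : d a = d b := (Prod.mk.inj hab).1
    have h2 : 2 * a / d a = 2 * b / d b := (Prod.mk.inj hab).2
    have h3 := Nat.mul_div_cancel' (hd1 a ha)
    have h4 := Nat.mul_div_cancel' (hd1 b hb)
    rw [h2, h1] at h3
    omega
  have himg : A.image φ ⊆ P := by
    intro x hx
    obtain ⟨a, ha, rfl⟩ := mem_image.1 hx
    obtain ⟨h1, h2, h3, -⟩ := hA a ha
    rw [hP, mem_product, mem_Ioc, mem_Icc]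
    refine ⟨⟨?_, Nat.le_floor (hd3 a ha)⟩, ?_, ?_⟩
    · exact (Nat.floor_lt hu0.le).2 (hd2 a ha)
    · exact Nat.div_pos (Nat.le_of_dvd (by omega) (hd1 a ha)) (hdpos a ha)
    · exact (Nat.div_le_self _ _).trans (by omega)
  have hpt : ∀ a ∈ A, 1 / (a : ℝ) ≤ g (φ a) := by
    intro a ha
    obtain ⟨h1, h2, h3, -⟩ := hA a ha
    have h4 := Nat.mul_div_cancel' (hd1 a ha)
    set c := 2 * a / d a with hc
    have hd0 := hdpos a ha
    have hc0 : 0 < c := by
      rcases Nat.eq_zero_or_pos c with h | h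
      · rw [h, mul_zero] at h4; omega
      · exact h
    have h5 : cardFactors (d a) + cardFactors c = 1 + cardFactors a := by
      rw [← cardFactors_mul hd0.ne' hc0.ne', h4, cardFactors_mul (by norm_num) h1.ne',
        cardFactors_apply_prime Nat.prime_two]
    have h6 : (1 : ℝ) ≤ w⁻¹ ^ (k + 1) * (w ^ cardFactors (d a) * w ^ cardFactors c) := by
      rw [← pow_add, h5]
      have h7 : w⁻¹ ^ (k + 1) * w ^ (k + 1) = 1 := by
        rw [← mul_pow, inv_mul_cancel₀ hw.ne', one_pow]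
      rw [← h7]
      exact mul_le_mul_of_nonneg_left (pow_le_pow_of_le_one hw.le hw1 (by omega)) (by positivity)
    have hda : (0 : ℝ) < d a := by exact_mod_cast hd0
    have hca : (0 : ℝ) < c := by exact_mod_cast hc0
    have haa : (0 : ℝ) < a := by exact_mod_cast h1
    have h8 : (d a : ℝ) * c = 2 * a := by exact_mod_cast h4
    have h9 : g (φ a) = (w⁻¹ ^ (k + 1) * (w ^ cardFactors (d a) * w ^ cardFactors c)) *
        (2 / (d a * c)) := by
      rw [hg, hφ]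
      simp only
      rw [hf_apply _ hd0.ne', ← hc]
      generalize w⁻¹ ^ (k + 1) = W
      field_simp
    rw [h9, h8]
    have h10 : 2 / (2 * (a : ℝ)) = 1 / a := by field_simp
    rw [h10]
    exact le_mul_of_one_le_left (by positivity) h6
  have h1 : ∑ a ∈ A, 1 / (a : ℝ) ≤ ∑ x ∈ P, g x := by
    refine (sum_le_sum hpt).trans ?_
    rw [← sum_image (f := g) (g := φ) hinj]
    exact sum_le_sum_of_subset_of_nonneg himg fun x _ _ => hg0 x
  refine h1.trans ?_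
  have h2 : ∑ x ∈ P, g x = 2 * w⁻¹ ^ (k + 1) *
      ((∑ d ∈ Ioc ⌊u⌋₊ ⌊2 ^ J * u⌋₊, hf w d / (d : ℝ)) *
        ∑ c ∈ Icc 1 (2 * N), w ^ cardFactors c / (c : ℝ)) := by
    rw [hg, ← mul_sum, hP, sum_product, sum_mul_sum]
  rw [h2]
  have h3 := hwin w u (t - 2) hw.le hw1 hu hs J
  have h4 := hgeo w (2 * N) hw.le (by linarith) (by omega)
  have h5 : Real.log (Real.log ((2 * N : ℕ) : ℝ)) ≤ t + 1 := by
    have h6 : Real.log ((2 * N : ℕ) : ℝ) ≤ Real.exp 1 * Real.log N := by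
      push_cast
      rw [Real.log_mul (by norm_num) hN0.ne']
      have := Real.log_two_lt_d9
      have := Real.exp_one_gt_d9
      nlinarith
    have h7 : 0 < Real.log ((2 * N : ℕ) : ℝ) :=
      Real.log_pos (by exact_mod_cast (by omega : 1 < 2 * N))
    have h8 := Real.log_le_log h7 h6
    rw [Real.log_mul (Real.exp_pos _).ne' (by linarith), Real.log_exp, ← ht] at h8
    linarith
  have h6 : ∑ c ∈ Icc 1 (2 * N), w ^ cardFactors c / (c : ℝ) ≤
      K' * Real.exp (w * (t + 1)) := by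
    refine h4.trans ?_
    exact mul_le_mul_of_nonneg_left
      (Real.exp_le_exp.2 (mul_le_mul_of_nonneg_left h5 hw.le)) hK'.le
  have h7 : 0 ≤ ∑ c ∈ Icc 1 (2 * N), w ^ cardFactors c / (c : ℝ) :=
    sum_nonneg fun c _ => by positivity
  have h8 : Real.exp (-(1 - w) * (t - 2)) * Real.exp (w * (t + 1)) ≤
      Real.exp 2 * Real.exp ((2 * w - 1) * t) := by
    rw [← Real.exp_add, ← Real.exp_add]
    refine Real.exp_le_exp.2 ?_
    nlinarith
  calc 2 * w⁻¹ ^ (k + 1) *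
      ((∑ d ∈ Ioc ⌊u⌋₊ ⌊2 ^ J * u⌋₊, hf w d / (d : ℝ)) *
        ∑ c ∈ Icc 1 (2 * N), w ^ cardFactors c / (c : ℝ))
      ≤ 2 * w⁻¹ ^ (k + 1) * ((J * (2 * K * Real.exp (-(1 - w) * (t - 2)))) *
        (K' * Real.exp (w * (t + 1)))) := by
          refine mul_le_mul_of_nonneg_left ?_ (by positivity)
          exact mul_le_mul h3 h6 h7 (by positivity)
    _ = 2 * (2 * K) * K' * (w⁻¹ ^ (k + 1) * J) *
        (Real.exp (-(1 - w) * (t - 2)) * Real.exp (w * (t + 1))) := by ring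
    _ ≤ 2 * (2 * K) * K' * (w⁻¹ ^ (k + 1) * J) *
        (Real.exp 2 * Real.exp ((2 * w - 1) * t)) := mul_le_mul_of_nonneg_left h8 (by positivity)
    _ = _ := by ring

end Pool.Agent.H79.SP
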