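import Pool.Agent.H79.SP.Gen
import Pool.Agent.H79.SP.Win
import Pool.Agent.H79.SP.Ari
import Pool.Agent.H79.SP.Cnt

set_option autoImplicit false

/-!
# The count of the split primes
-/

namespace Pool.Agent.H79.SP

open Finset Pool.Agent.H99.PC ArithmeticFunction

/-- `2 - (1 + log log 2) / log 2 = 1.086...` -/
noncomputable def dl : ℝ := 2 - (1 + Real.log (Real.log 2)) / Real.log 2

private theorem part_small (M : ℕ → ℕ) (hM0 : ∀ d, 0 < d → 0 < M d) (hM : ∀ d, M d ≤ 2 ^ d)
    (g : ℕ → ℕ) (A : Finset ℕ) (y x : ℝ) (hy : 1 < y) (hx : 0 ≤ x)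
    (hA : ∀ p ∈ A, p.Prime ∧ y < (p : ℝ) ∧ 0 < g p ∧ (g p : ℝ) ≤ x ∧ p ∣ M (g p)) :
    (A.card : ℝ) * Real.log y ≤ x * x := by
  have h1 := cnt M hM0 hM A (Ioc 0 ⌊x⌋₊) g y x hy ?_ ?_
  · refine h1.trans ?_
    rw [Nat.card_Ioc, Nat.sub_zero]
    exact mul_le_mul_of_nonneg_right (Nat.floor_le hx) hx
  · intro p hp
    obtain ⟨h2, h3, h4, h5, h6⟩ := hA p hp
    exact ⟨h2, h3, mem_Ioc.2 ⟨h4, Nat.le_floor h5⟩, h6⟩
  · intro d hd
    rw [mem_Ioc] at hd
    refine ⟨hd.1, ?_⟩
    exact (Nat.le_floor_iff hx).1 hd.2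

private theorem big_exp {t : ℝ} (ht : 6000 ≤ t) : 1000 * t ^ 2 ≤ Real.exp t := by
  have h1 := Real.pow_div_factorial_le_exp t (by linarith) 3
  have h2 : ((Nat.factorial 3 : ℕ) : ℝ) = 6 := by norm_num [Nat.factorial]
  rw [h2] at h1
  refine le_trans ?_ h1
  rw [le_div_iff₀ (by norm_num)]
  nlinarith [sq_nonneg t, mul_nonneg (sq_nonneg t) (by linarith : (0 : ℝ) ≤ t - 6000)]

/-- the facts about `κ = 1 / log 2` -/
private theorem kap : ∃ κ : ℝ, 1 ≤ κ ∧ κ ≤ 3 / 2 ∧ dl = 2 - κ + κ * Real.log κ ∧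
    κ * Real.log (κ / 2) = κ * Real.log κ - 1 := by
  have h1 := Real.log_two_gt_d9
  have h2 := Real.log_two_lt_d9
  have h0 : 0 < Real.log 2 := by linarith
  refine ⟨(Real.log 2)⁻¹, ?_, ?_, ?_, ?_⟩
  · rw [one_le_inv₀ h0]; linarith
  · rw [inv_le_comm₀ h0 (by norm_num)]; linarith
  · rw [Real.log_inv]
    unfold dl
    field_simp
    ring
  · rw [Real.log_div (by positivity) (by norm_num), mul_sub, inv_mul_cancel₀ h0.ne']

theorem dl_nonneg : 0 ≤ dl := by
  have h1 := Real.log_two_gt_d9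
  have h2 := Real.log_two_lt_d9
  have h0 : 0 < Real.log 2 := by linarith
  have h3 : Real.log (Real.log 2) ≤ 0 := Real.log_nonpos h0.le (by linarith)
  unfold dl
  rw [sub_nonneg, div_le_iff₀ h0]
  linarith

private theorem dl_le : dl ≤ 2 := by
  have h1 := Real.log_two_gt_d9
  have h2 := Real.log_two_lt_d9
  have h0 : 0 < Real.log 2 := by linarith
  have h3 : -1 ≤ Real.log (Real.log 2) := by
    rw [Real.le_log_iff_exp_le h0, Real.exp_neg]
    have h4 := Real.exp_one_gt_d9
    refine le_trans (inv_anti₀ (by norm_num) h4.le) ?_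
    refine le_trans ?_ h1.le
    norm_num
  unfold dl
  have h4 : 0 ≤ (1 + Real.log (Real.log 2)) / Real.log 2 := div_nonneg (by linarith) h0.le
  linarith

/-- **The count.** -/
theorem count : ∃ C t0 : ℝ, 0 < C ∧ 1 ≤ t0 ∧ ∀ (N : ℕ) (t : ℝ), t = Real.log (Real.log N) →
    t0 ≤ t → ∀ A : Finset ℕ, (∀ p ∈ A, p ≤ N ∧ p.Prime ∧ 0 < ko p ∧ 0 < zr p ∧
      ko p * zr p ∣ 2 * (p - 1) ∧ p ∣ 2 ^ ko p - 1 ∧ p ∣ Nat.fib (zr p)) →
    (A.card : ℝ) ≤ C * N * (t ^ 5 * Real.exp (-dl * t)) := by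
  classical
  obtain ⟨C, hC, hmom⟩ := mom
  obtain ⟨C', hC', hgen⟩ := gen
  obtain ⟨K, hK, hwin⟩ := win
  obtain ⟨κ, hκ1, hκ2, hκ3, hκ4⟩ := kap
  have hκ0 : 0 < κ := by linarith
  have hlκ : 0 ≤ Real.log κ := Real.log_nonneg hκ1
  have hlw : Real.log (κ / 2) ≤ 0 := Real.log_nonpos (by positivity) (by linarith)
  refine ⟨1 + 2 + 2 + C * (κ + 1) + C' * (4 * K * (κ / 2)⁻¹ + 1), 6000, by positivity,
    by norm_num, ?_⟩
  intro N t ht ht0 A hA
  have hbig := big_exp ht0
  -- the size of `N`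
  have hN : 21 ≤ N := by
    by_contra hcon
    have h1 : (N : ℝ) ≤ 20 := by exact_mod_cast (by omega : N ≤ 20)
    have h2 : Real.log N ≤ 20 := by
      rcases Nat.eq_zero_or_pos N with h | h
      · rw [h]; norm_num
      · have := Real.log_le_sub_one_of_pos (by exact_mod_cast h : (0 : ℝ) < N)
        linarith
    have h3 : t ≤ 20 := by
      rcases le_or_gt (Real.log N) 0 with h | h
      · have h4 : Real.log N = 0 := le_antisymm h (Real.log_natCast_nonneg N)
        rw [ht, h4, Real.log_zero]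
        norm_num
      · have := Real.log_le_sub_one_of_pos h
        linarith
    linarith
  have hN0 : (0 : ℝ) < N := by positivity
  have hlog : 0 < Real.log N := Real.log_pos (by exact_mod_cast (by omega : 1 < N))
  have hexp : Real.exp t = Real.log N := by rw [ht, Real.exp_log hlog]
  have htp : 0 < t := by linarith
  set y := Real.exp (Real.exp t / 2) with hy
  have hyy : y * y = N := by
    rw [hy, ← Real.exp_add, add_halves, hexp, Real.exp_log hN0]
  have hy0 : 0 < y := Real.exp_pos _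
  have hlogy : Real.log y = Real.exp t / 2 := Real.log_exp _
  have ht2 : 6000 * t ≤ t ^ 2 := by nlinarith
  have hy1 : 1 < y := by
    rw [hy]
    exact Real.one_lt_exp_iff.2 (by positivity)
  set τ := Real.exp (t / 2) with hτ
  have hτ0 : 0 < τ := Real.exp_pos _
  have hττ : τ * τ = Real.exp t := by
    rw [hτ, ← Real.exp_add, add_halves]
  set u := y / τ with hu
  have hu0 : 0 < u := by positivity
  have huτ : u * τ = y := div_mul_cancel₀ _ hτ0.ne'
  have hlogu : Real.log u = Real.exp t / 2 - t / 2 := by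
    rw [hu, Real.log_div hy0.ne' hτ0.ne', hlogy, hτ, Real.log_exp]
  have hlogu3 : Real.exp t / 3 ≤ Real.log u := by
    rw [hlogu]; nlinarith
  have hu4 : 4 ≤ u := by
    have h1 := Real.log_le_sub_one_of_pos hu0
    nlinarith
  have hus : t - 2 ≤ Real.log (Real.log u) := by
    rw [Real.le_log_iff_exp_le (by nlinarith)]
    refine le_trans ?_ hlogu3
    rw [Real.exp_sub]
    refine div_le_div_of_nonneg_left (Real.exp_pos t).le (by norm_num) ?_
    have := Real.add_one_le_exp (2 : ℝ)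
    linarith
  set k := ⌊κ * t⌋₊ with hk
  have hk1 : (k : ℝ) ≤ κ * t := Nat.floor_le (by positivity)
  have hk2 : κ * t ≤ (k : ℝ) + 1 := (Nat.lt_floor_add_one _).le
  set J := ⌊2 * t⌋₊ + 2 with hJ
  have hJ1 : (J : ℝ) ≤ 4 * t := by
    have h1 : ((⌊2 * t⌋₊ : ℕ) : ℝ) ≤ 2 * t := Nat.floor_le (by positivity)
    rw [hJ]; push_cast; linarith
  have hJ2 : 2 * t + 1 ≤ (J : ℝ) := by
    have h1 := Nat.lt_floor_add_one (2 * t)
    rw [hJ]; push_cast; linarith
  have hJ3 : 2 * Real.exp t ≤ 2 ^ J := by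
    have h1 : (2 : ℝ) ^ J = Real.exp (J * Real.log 2) := by
      rw [Real.exp_nat_mul, Real.exp_log (by norm_num)]
    have h2 : 2 * Real.exp t = Real.exp (Real.log 2 + t) := by
      rw [Real.exp_add, Real.exp_log (by norm_num)]
    rw [h1, h2]
    refine Real.exp_le_exp.2 ?_
    have := Real.log_two_gt_d9
    nlinarith
  -- the pieces
  set A0 := A.filter (fun p : ℕ => (p : ℝ) ≤ y) with hA0
  set A1 := A.filter (fun p : ℕ => y < (p : ℝ) ∧ (ko p : ℝ) ≤ u) with hA1
  set A2 := A.filter (fun p : ℕ => y < (p : ℝ) ∧ (zr p : ℝ) ≤ u) with hA2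
  set A3 := A.filter (fun p : ℕ => k < cardFactors (p - 1)) with hA3
  set A4 := A.filter (fun p : ℕ => u < (ko p : ℝ) ∧ u < (zr p : ℝ) ∧ cardFactors (p - 1) ≤ k)
    with hA4
  have hsub : A ⊆ A0 ∪ A1 ∪ A2 ∪ A3 ∪ A4 := by
    intro p hp
    simp only [mem_union, hA0, hA1, hA2, hA3, hA4, mem_filter]
    by_contra hcon
    simp only [hp, true_and, not_or, not_and, not_le, not_lt] at hcon
    obtain ⟨⟨⟨⟨c0, c1⟩, c2⟩, c3⟩, c4⟩ := hcon
    have := c4 (c1 c0) (c2 c0)
    omega
  have hcard : (A.card : ℝ) ≤ A0.card + A1.card + A2.card + A3.card + A4.card := by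
    have h1 : A.card ≤ A0.card + A1.card + A2.card + A3.card + A4.card := by
      refine (card_le_card hsub).trans ?_
      refine (card_union_le _ _).trans (Nat.add_le_add_right ?_ _)
      refine (card_union_le _ _).trans (Nat.add_le_add_right ?_ _)
      refine (card_union_le _ _).trans (Nat.add_le_add_right ?_ _)
      exact card_union_le _ _
    exact_mod_cast h1
  have ht5 : 1 ≤ t ^ 5 := one_le_pow₀ (by linarith)
  have ht45 : t ^ 4 ≤ t ^ 5 := pow_le_pow_right₀ (by linarith) (by norm_num)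
  set E := t ^ 5 * Real.exp (-dl * t) with hE
  have hE2 : Real.exp (-2 * t) ≤ E := by
    have h1 : Real.exp (-2 * t) ≤ Real.exp (-dl * t) := by
      refine Real.exp_le_exp.2 ?_
      have := mul_le_mul_of_nonneg_right dl_le htp.le
      linarith
    exact h1.trans (le_mul_of_one_le_left (Real.exp_pos _).le ht5)
  have hL0 : 0 < Real.exp t := Real.exp_pos _
  -- the small primes
  have b0 : (A0.card : ℝ) ≤ N * E := by
    have h1 : A0 ⊆ Ioc 0 ⌊y⌋₊ := by
      intro p hp
      obtain ⟨h2, h3⟩ := mem_filter.1 hp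
      exact mem_Ioc.2 ⟨(hA p h2).2.1.pos, Nat.le_floor h3⟩
    have h2 : (A0.card : ℝ) ≤ y := by
      have h3 := card_le_card h1
      rw [Nat.card_Ioc, Nat.sub_zero] at h3
      exact (Nat.cast_le.2 h3).trans (Nat.floor_le hy0.le)
    refine h2.trans ((le_trans ?_ (mul_le_mul_of_nonneg_left hE2 hN0.le)))
    rw [← hyy, mul_assoc]
    refine le_mul_of_one_le_right hy0.le ?_
    rw [hy, ← Real.exp_add]
    refine Real.one_le_exp ?_
    nlinarith
  -- one of the orders is small
  have hdiv0 : ∀ a : ℝ, a * Real.log y ≤ u * u → a ≤ 2 * N * E := by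
    intro a h1
    have h2 : u * u = N * Real.exp (-2 * t) * Real.exp t := by
      have h3 : Real.exp (-2 * t) * Real.exp t = (τ * τ)⁻¹ := by
        rw [hττ, ← Real.exp_neg, ← Real.exp_add]; congr 1; ring
      rw [mul_assoc, h3, hu, div_mul_div_comm, hyy, div_eq_mul_inv]
    rw [hlogy, h2] at h1
    have h4 : a ≤ 2 * (N * Real.exp (-2 * t)) := by
      refine le_of_mul_le_mul_right ?_ hL0
      linarith
    calc a ≤ 2 * (N * Real.exp (-2 * t)) := h4
      _ ≤ 2 * (N * E) := by gcongr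
      _ = _ := by ring
  have b1 : (A1.card : ℝ) ≤ 2 * N * E := by
    refine hdiv0 _ ?_
    refine part_small (fun d => 2 ^ d - 1) two_pow_sub (fun d => Nat.sub_le _ _) ko A1 y u
      hy1 hu0.le ?_
    intro p hp
    obtain ⟨h2, h3, h4⟩ := mem_filter.1 hp
    obtain ⟨-, hpp, hk0, hz0, hkz, hd1, hd2⟩ := hA p h2
    exact ⟨hpp, h3, hk0, h4, hd1⟩
  have b2 : (A2.card : ℝ) ≤ 2 * N * E := by
    refine hdiv0 _ ?_
    refine part_small Nat.fib (fun d hd => Nat.fib_pos.2 hd) (fun d => (fib_le d).1) zr A2 y u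
      hy1 hu0.le ?_
    intro p hp
    obtain ⟨h2, h3, h4⟩ := mem_filter.1 hp
    obtain ⟨-, hpp, hk0, hz0, hkz, hd1, hd2⟩ := hA p h2
    exact ⟨hpp, h3, hz0, h4, hd2⟩
  -- many prime factors
  have b3 : (A3.card : ℝ) ≤ C * (κ + 1) * N * E := by
    have h1 : A3 ⊆ (Ioc 0 N).filter (fun p => p.Prime ∧ k < cardFactors (p - 1)) := by
      intro p hp
      obtain ⟨h2, h3⟩ := mem_filter.1 hp
      obtain ⟨hpN, hpp, -⟩ := hA p h2
      exact mem_filter.2 ⟨mem_Ioc.2 ⟨hpp.pos, hpN⟩, hpp, h3⟩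
    have h2 : (A3.card : ℝ) ≤
        (((Ioc 0 N).filter (fun p => p.Prime ∧ k < cardFactors (p - 1))).card : ℝ) :=
      Nat.cast_le.2 (card_le_card h1)
    refine (h2.trans (hmom N t hN ht (by linarith) hbig κ k hκ1 hκ2)).trans ?_
    have h3 : κ⁻¹ ^ k ≤ κ * Real.exp (-(κ * Real.log κ) * t) := by
      have h4 : κ⁻¹ ^ k = Real.exp (-(k * Real.log κ)) := by
        rw [Real.exp_neg, Real.exp_nat_mul, Real.exp_log hκ0, inv_pow]
      have h5 : κ * Real.exp (-(κ * Real.log κ) * t) =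
          Real.exp (Real.log κ + -(κ * Real.log κ) * t) := by
        rw [Real.exp_add, Real.exp_log hκ0]
      rw [h4, h5]
      refine Real.exp_le_exp.2 ?_
      have := mul_le_mul_of_nonneg_right hk2 hlκ
      linarith
    have h6 : t ^ 4 * Real.exp ((κ - 2) * t) * κ⁻¹ ^ k ≤ κ * E := by
      calc t ^ 4 * Real.exp ((κ - 2) * t) * κ⁻¹ ^ k
          ≤ t ^ 5 * Real.exp ((κ - 2) * t) * (κ * Real.exp (-(κ * Real.log κ) * t)) := by
            gcongr
        _ = κ * (t ^ 5 * (Real.exp ((κ - 2) * t) * Real.exp (-(κ * Real.log κ) * t))) := by ring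
        _ = κ * E := by
            rw [hE, ← Real.exp_add]
            congr 3
            rw [hκ3]; ring
    calc C * N * (t ^ 4 * Real.exp ((κ - 2) * t) * κ⁻¹ ^ k + Real.exp (-2 * t))
        ≤ C * N * (κ * E + E) := by gcongr
      _ = _ := by ring
  -- the divisor in the window
  have b4 : (A4.card : ℝ) ≤ C' * (4 * K * (κ / 2)⁻¹ + 1) * N * E := by
    set T := (Ioc 0 N).filter (fun a => cardFactors a ≤ k ∧
      ∃ d : ℕ, d ∣ 2 * a ∧ u < d ∧ (d : ℝ) ≤ 2 ^ J * u) with hT
    have h1 := hgen N t hN ht (by linarith) hbig A4 T ?_ ?_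
    · have h2 := hwin N t hN ht (κ / 2) u J k (by positivity) (by linarith) hu4 hus T (by
        intro a ha
        rw [hT, mem_filter, mem_Ioc] at ha
        exact ⟨ha.1.1, ha.1.2, ha.2.1, ha.2.2⟩)
      have h3 : (κ / 2)⁻¹ ^ (k + 1) ≤ (κ / 2)⁻¹ * Real.exp ((1 - κ * Real.log κ) * t) := by
        have hw0 : 0 < κ / 2 := by positivity
        have h4 : (κ / 2)⁻¹ ^ (k + 1) = Real.exp (-(((k + 1 : ℕ) : ℝ) * Real.log (κ / 2))) := by
          rw [Real.exp_neg, Real.exp_nat_mul, Real.exp_log hw0, inv_pow]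
        have h5 : (κ / 2)⁻¹ * Real.exp ((1 - κ * Real.log κ) * t) =
            Real.exp (-Real.log (κ / 2) + (1 - κ * Real.log κ) * t) := by
          rw [Real.exp_add, Real.exp_neg, Real.exp_log hw0]
        rw [h4, h5]
        refine Real.exp_le_exp.2 ?_
        push_cast
        have h6 := mul_le_mul_of_nonneg_right hk1 (neg_nonneg.2 hlw)
        have h7 : κ * t * -Real.log (κ / 2) = (1 - κ * Real.log κ) * t := by
          have : κ * t * -Real.log (κ / 2) = -(κ * Real.log (κ / 2)) * t := by ring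
          rw [this, hκ4]; ring
        linarith
      have h4 : t ^ 4 * Real.exp (-2 * t) * (∑ a ∈ T, 1 / (a : ℝ)) ≤
          4 * K * (κ / 2)⁻¹ * E := by
        calc t ^ 4 * Real.exp (-2 * t) * (∑ a ∈ T, 1 / (a : ℝ))
            ≤ t ^ 4 * Real.exp (-2 * t) *
              (K * ((κ / 2)⁻¹ * Real.exp ((1 - κ * Real.log κ) * t)) * (4 * t) *
                Real.exp ((2 * (κ / 2) - 1) * t)) := by
              refine mul_le_mul_of_nonneg_left (h2.trans ?_) (by positivity)
              gcongr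
          _ = 4 * K * (κ / 2)⁻¹ * (t ^ 5 * (Real.exp (-2 * t) *
                Real.exp ((1 - κ * Real.log κ) * t) * Real.exp ((2 * (κ / 2) - 1) * t))) := by
              ring
          _ = 4 * K * (κ / 2)⁻¹ * E := by
              rw [hE, ← Real.exp_add, ← Real.exp_add]
              congr 3
              rw [hκ3]; ring
      calc (A4.card : ℝ) ≤ C' * N * (t ^ 4 * Real.exp (-2 * t) * (∑ a ∈ T, 1 / (a : ℝ)) +
            Real.exp (-2 * t)) := h1
        _ ≤ C' * N * (4 * K * (κ / 2)⁻¹ * E + E) := by gcongr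
        _ = _ := by ring
    · intro p hp
      obtain ⟨h2, -⟩ := mem_filter.1 hp
      exact ⟨(hA p h2).1, (hA p h2).2.1⟩
    · intro p hp q a hq hqz hqa
      obtain ⟨h2, h3, h4, h5⟩ := mem_filter.1 hp
      obtain ⟨hpN, hpp, hk0, hz0, ⟨r, hr⟩, -, -⟩ := hA p h2
      have hp2 := hpp.two_le
      have ha0 : 0 < a := by
        rcases Nat.eq_zero_or_pos a with h | h
        · rw [h, mul_zero] at hqa; omega
        · exact h
      have hr0 : 0 < r := by
        rcases Nat.eq_zero_or_pos r with h | h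
        · rw [h, mul_zero] at hr; omega
        · exact h
      have hk0' : (0 : ℝ) < ko p := by exact_mod_cast hk0
      have hz0' : (0 : ℝ) < zr p := by exact_mod_cast hz0
      have hr0' : (1 : ℝ) ≤ r := by exact_mod_cast hr0
      have e1 : (ko p : ℝ) * zr p * r ≤ 2 * (u * u) * Real.exp t := by
        have e2 : ko p * zr p * r ≤ 2 * N := by rw [← hr]; omega
        have e3 : (ko p : ℝ) * zr p * r ≤ 2 * N := by exact_mod_cast e2
        have e4 : 2 * (u * u) * Real.exp t = 2 * N := by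
          rw [← hττ, ← hyy, ← huτ]; ring
        rwa [e4]
      have hprod : (0 : ℝ) < ko p * zr p := mul_pos hk0' hz0'
      have hkle : (ko p : ℝ) ≤ 2 ^ J * u := by
        by_contra h
        push Not at h
        have f1 : 2 ^ J * u * u < ko p * zr p := mul_lt_mul'' h h4 (by positivity) hu0.le
        have f2 : (ko p : ℝ) * zr p ≤ ko p * zr p * r := le_mul_of_one_le_right hprod.le hr0'
        have f3 : 2 * Real.exp t * (u * u) ≤ 2 ^ J * (u * u) :=
          mul_le_mul_of_nonneg_right hJ3 (by positivity)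
        linarith
      have hzle : (zr p : ℝ) ≤ 2 ^ J * u := by
        by_contra h
        push Not at h
        have f1 : u * (2 ^ J * u) < ko p * zr p := mul_lt_mul'' h3 h hu0.le (by positivity)
        have f2 : (ko p : ℝ) * zr p ≤ ko p * zr p * r := le_mul_of_one_le_right hprod.le hr0'
        have f3 : 2 * Real.exp t * (u * u) ≤ 2 ^ J * (u * u) :=
          mul_le_mul_of_nonneg_right hJ3 (by positivity)
        linarith
      have hrle : (r : ℝ) ≤ 2 * Real.exp t := by
        by_contra h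
        push Not at h
        have f1 : u * u < ko p * zr p := mul_lt_mul'' h3 h4 hu0.le hu0.le
        have f2 : u * u * (2 * Real.exp t) < ko p * zr p * r :=
          mul_lt_mul'' f1 h (by positivity) (by positivity)
        linarith
      have hrq : r < q := by
        have f1 : (r : ℝ) < q := by
          refine lt_of_le_of_lt (hrle.trans ?_) hqz
          have f2 : 2 * Real.exp t = Real.exp (Real.log 2 + t) := by
            rw [Real.exp_add, Real.exp_log (by norm_num)]
          rw [f2]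
          refine Real.exp_le_exp.2 ?_
          rw [le_div_iff₀ (by positivity), ← hexp]
          have := Real.log_two_lt_d9
          nlinarith
        exact_mod_cast f1
      have hmul : ko p * zr p * r = q * (2 * a) := by
        rw [← hr, hqa]; ring
      have hdvd : q ∣ ko p * zr p * r := ⟨2 * a, hmul⟩
      have hΩ : cardFactors a ≤ k := by
        rw [hqa, cardFactors_mul hq.ne_zero ha0.ne', cardFactors_apply_prime hq] at h5
        omega
      have haN : a ≤ N := by
        have : a ≤ q * a := Nat.le_mul_of_pos_left a hq.pos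
        omega
      rw [hT, mem_filter, mem_Ioc]
      refine ⟨⟨ha0, haN⟩, hΩ, ?_⟩
      rcases (Nat.Prime.dvd_mul hq).1 hdvd with h | h
      · rcases (Nat.Prime.dvd_mul hq).1 h with h | h
        · obtain ⟨c, hc⟩ := h
          refine ⟨zr p, ⟨c * r, ?_⟩, h4, hzle⟩
          refine Nat.eq_of_mul_eq_mul_left hq.pos ?_
          rw [← hmul, hc]; ring
        · obtain ⟨c, hc⟩ := h
          refine ⟨ko p, ⟨c * r, ?_⟩, h3, hkle⟩
          refine Nat.eq_of_mul_eq_mul_left hq.pos ?_
          rw [← hmul, hc]; ring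
      · have := Nat.le_of_dvd hr0 h
        omega
  calc (A.card : ℝ) ≤ A0.card + A1.card + A2.card + A3.card + A4.card := hcard
    _ ≤ N * E + 2 * N * E + 2 * N * E + C * (κ + 1) * N * E +
        C' * (4 * K * (κ / 2)⁻¹ + 1) * N * E := by linarith
    _ = _ := by ring

end Pool.Agent.H79.SP
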