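import Pool.Agent.H75.AP.MertensB
import Pool.Agent.H5.W.PairSieve

set_option autoImplicit false

/-!
# A bound for `∏_{p ∣ E} (1 + 1/p)`
-/

namespace Pool.Agent.H79.SP

open Finset Pool.Agent.H75.AP Pool.Agent.H5.W

private theorem card_pf (N E : ℕ) (hE : 0 < E) (hEN : E ≤ 2 * N) (hN : 21 ≤ N) :
    (E.primeFactors.card : ℝ) ≤ 2 * Real.log N + 1 := by
  have h1 : 2 ^ E.primeFactors.card ≤ E :=
    (Finset.pow_card_le_prod _ _ _ fun p hp => (Nat.prime_of_mem_primeFactors hp).two_le).trans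
      (Nat.le_of_dvd hE (Nat.prod_primeFactors_dvd E))
  have h2 : (2 : ℝ) ^ E.primeFactors.card ≤ 2 * N := by exact_mod_cast h1.trans hEN
  have h3 := Real.log_le_log (by positivity) h2
  rw [Real.log_pow, Real.log_mul (by norm_num) (by positivity)] at h3
  have h4 := Real.log_two_gt_d9
  have h5 : 0 ≤ Real.log N := Real.log_natCast_nonneg N
  by_contra hcon
  push Not at hcon
  nlinarith

/-- `ρ(E) ≤ C log log N` for `E ≤ 2 N` -/
theorem rho_small : ∃ C : ℝ, 0 < C ∧ ∀ N J E : ℕ, 0 < E → E ≤ 2 * N → 21 ≤ N →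
    rhoz J E ≤ C * Real.log (Real.log N) := by
  obtain ⟨C, hC, hM⟩ := mertens_upper
  refine ⟨Real.exp (C + 3), Real.exp_pos _, ?_⟩
  intro N J E hE hEN hN
  refine (rhoz_le_rho J E hE.ne').trans ?_
  have hY3 : 3 ≤ Real.log N := by
    rw [Real.le_log_iff_exp_le (by positivity)]
    have h1 : Real.exp 3 = Real.exp 1 ^ 3 := by rw [← Real.exp_nat_mul]; norm_num
    have h2 := Real.exp_one_lt_d9
    have h3 : (21 : ℝ) ≤ N := by exact_mod_cast hN
    have h4 : Real.exp 1 ^ 3 ≤ 2.7182818286 ^ 3 := pow_le_pow_left₀ (Real.exp_pos _).le h2.le 3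
    rw [h1]
    refine h4.trans (le_trans (by norm_num) h3)
  set Y := Real.log N with hY
  have hlogY : 0 < Real.log Y := Real.log_pos (by linarith)
  have h1 : rho E ≤ Real.exp (∑ p ∈ E.primeFactors, 1 / (p : ℝ)) := by
    unfold rho
    rw [Real.exp_sum]
    refine prod_le_prod (fun p _ => by positivity) fun p _ => ?_
    have := Real.add_one_le_exp (1 / (p : ℝ))
    linarith
  refine h1.trans ?_
  have h2 : ∑ p ∈ E.primeFactors, 1 / (p : ℝ) ≤ Real.log (Real.log Y) + C + 3 := by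
    rw [← sum_filter_add_sum_filter_not E.primeFactors (fun p : ℕ => (p : ℝ) ≤ Y)]
    have h3 : ∑ p ∈ E.primeFactors.filter (fun p : ℕ => (p : ℝ) ≤ Y), 1 / (p : ℝ) ≤
        Real.log (Real.log Y) + C := by
      refine le_trans (sum_le_sum_of_subset_of_nonneg ?_ fun _ _ _ => by positivity) (hM Y hY3)
      intro p hp
      rw [mem_filter] at hp
      unfold PI
      have hpp := Nat.prime_of_mem_primeFactors hp.1
      rw [mem_filter, mem_range, Nat.lt_succ_iff]
      exact ⟨Nat.le_floor hp.2, hpp, by exact_mod_cast hpp.pos⟩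
    have h4 : ∑ p ∈ E.primeFactors.filter (fun p : ℕ => ¬ (p : ℝ) ≤ Y), 1 / (p : ℝ) ≤ 3 := by
      have h5 : ∑ p ∈ E.primeFactors.filter (fun p : ℕ => ¬ (p : ℝ) ≤ Y), 1 / (p : ℝ) ≤
          ∑ _p ∈ E.primeFactors.filter (fun p : ℕ => ¬ (p : ℝ) ≤ Y), 1 / Y := by
        refine sum_le_sum fun p hp => ?_
        rw [mem_filter, not_le] at hp
        exact one_div_le_one_div_of_le (by linarith) hp.2.le
      refine h5.trans ?_
      rw [sum_const, nsmul_eq_mul]
      have h6 : ((E.primeFactors.filter (fun p : ℕ => ¬ (p : ℝ) ≤ Y)).card : ℝ) ≤ 2 * Y + 1 :=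
        le_trans (by exact_mod_cast card_filter_le _ _) (card_pf N E hE hEN hN)
      rw [mul_one_div, div_le_iff₀ (by linarith)]
      linarith
    linarith
  refine (Real.exp_le_exp.2 h2).trans (le_of_eq ?_)
  rw [add_assoc, Real.exp_add, Real.exp_log hlogY, mul_comm]

end Pool.Agent.H79.SP
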