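import Pool.Agent.H75.AP.MertensB
import Pool.Agent.H99.PC.Rnk

set_option autoImplicit false

/-!
# Few integers without a large prime factor (Rankin)
-/

namespace Pool.Agent.H79.SP

open Finset Pool.Agent.H75.AP

/-- Few integers up to `N` have all prime factors at most `N ^ (1 / (8 log log N))`. -/
theorem smooth : ∃ C : ℝ, 0 < C ∧ ∀ (N : ℕ) (t : ℝ), 3 ≤ N → t = Real.log (Real.log N) → 1 ≤ t →
    1000 * t ^ 2 ≤ Real.exp t → ∀ T : Finset ℕ, (∀ n ∈ T, 0 < n ∧ n ≤ N ∧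
      ∀ q : ℕ, q.Prime → q ∣ n → (q : ℝ) ≤ Real.exp (Real.log N / (8 * t))) →
    (T.card : ℝ) ≤ C * N * Real.exp (-2 * t) := by
  obtain ⟨C, hC, hM⟩ := mertens_upper
  refine ⟨Real.exp (6 * C), Real.exp_pos _, ?_⟩
  intro N t hN ht ht1 ht2 T hT
  have hN0 : (0 : ℝ) < N := by positivity
  have hlog : 0 < Real.log N := Real.log_pos (by exact_mod_cast (by omega : 1 < N))
  have hexp : Real.exp t = Real.log N := by rw [ht, Real.exp_log hlog]
  set z := Real.log N / (8 * t) with hz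
  have hz1 : 125 ≤ z := by
    rw [hz, le_div_iff₀ (by positivity), ← hexp]
    nlinarith
  have hz2 : z ≤ Real.log N := by
    rw [hz]
    exact div_le_self hlog.le (by linarith)
  set s : Finset ℕ := PI 0 (Real.exp z) with hs
  have hmem : ∀ p : ℕ, p ∈ s ↔ p.Prime ∧ (p : ℝ) ≤ Real.exp z := by
    intro p
    rw [hs]
    unfold PI
    rw [mem_filter, mem_range, Nat.lt_succ_iff, Nat.le_floor_iff (Real.exp_pos _).le]
    constructor
    · rintro ⟨h1, h2, -⟩; exact ⟨h2, h1⟩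
    · rintro ⟨h1, h2⟩; exact ⟨h2, h1, by exact_mod_cast h1.pos⟩
  have ha : 1 / z ≤ 1 / 4 := by
    rw [div_le_div_iff₀ (by linarith) (by norm_num)]
    linarith
  have h1 := Pool.Agent.H99.PC.rnk s T (fun p hp => ((hmem p).1 hp).1) (fun m hm => by
    obtain ⟨h2, -, h3⟩ := hT m hm
    exact ⟨h2.ne', fun p hp hpm => (hmem p).2 ⟨hp, h3 p hp hpm⟩⟩) (1 / z) ha
  have h2 : (T.card : ℝ) * (N : ℝ) ^ (-1 + 1 / z) ≤ ∑ m ∈ T, (m : ℝ) ^ (-1 + 1 / z) := by
    rw [← nsmul_eq_mul, ← sum_const]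
    refine sum_le_sum fun m hm => ?_
    obtain ⟨h2, h3, -⟩ := hT m hm
    exact Real.rpow_le_rpow_of_nonpos (by exact_mod_cast h2) (by exact_mod_cast h3) (by linarith)
  have h3 : ∑ p ∈ s, (p : ℝ) ^ (-1 + 1 / z) ≤ Real.exp 1 * (t + C) := by
    have h4 : ∑ p ∈ s, (p : ℝ) ^ (-1 + 1 / z) ≤ ∑ p ∈ s, Real.exp 1 * (1 / (p : ℝ)) := by
      refine sum_le_sum fun p hp => ?_
      obtain ⟨h5, h6⟩ := (hmem p).1 hp
      have h7 : (0 : ℝ) < p := by exact_mod_cast h5.pos
      rw [Real.rpow_add h7, Real.rpow_neg_one, mul_comm, one_div (p : ℝ)]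
      refine mul_le_mul_of_nonneg_right ?_ (by positivity)
      calc (p : ℝ) ^ (1 / z) ≤ Real.exp z ^ (1 / z) :=
            Real.rpow_le_rpow h7.le h6 (by positivity)
        _ = Real.exp 1 := by
            rw [← Real.exp_mul, mul_one_div, div_self (by linarith)]
    refine h4.trans ?_
    rw [← mul_sum]
    refine mul_le_mul_of_nonneg_left ?_ (Real.exp_pos _).le
    have h8 : (3 : ℝ) ≤ Real.exp z := by
      have := Real.add_one_le_exp z
      linarith
    refine (hM (Real.exp z) h8).trans ?_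
    rw [Real.log_exp]
    have h9 : Real.log z ≤ t := by
      rw [ht]
      exact Real.log_le_log (by linarith) hz2
    linarith
  have h4 : (T.card : ℝ) * (N : ℝ) ^ (-1 + 1 / z) ≤ Real.exp (2 * (Real.exp 1 * (t + C))) :=
    h2.trans (h1.trans (Real.exp_le_exp.2 (mul_le_mul_of_nonneg_left h3 (by norm_num))))
  have h5 : (N : ℝ) ^ (-1 + 1 / z) = (N : ℝ)⁻¹ * Real.exp (8 * t) := by
    rw [Real.rpow_add hN0, Real.rpow_neg_one]
    congr 1
    rw [Real.rpow_def_of_pos hN0]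
    congr 1
    rw [hz]
    field_simp
  rw [h5] at h4
  have h6 : (T.card : ℝ) = (T.card : ℝ) * ((N : ℝ)⁻¹ * Real.exp (8 * t)) * (N * Real.exp (-(8 * t))) := by
    have : Real.exp (8 * t) * Real.exp (-(8 * t)) = 1 := by rw [← Real.exp_add]; simp
    field_simp
    rw [mul_assoc, this, mul_one]
  rw [h6]
  have h7 : (T.card : ℝ) * ((N : ℝ)⁻¹ * Real.exp (8 * t)) * (N * Real.exp (-(8 * t))) ≤
      Real.exp (2 * (Real.exp 1 * (t + C))) * (N * Real.exp (-(8 * t))) :=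
    mul_le_mul_of_nonneg_right h4 (by positivity)
  refine h7.trans ?_
  have he := Real.exp_one_lt_d9
  have h8 : Real.exp (2 * (Real.exp 1 * (t + C))) * Real.exp (-(8 * t)) ≤
      Real.exp (6 * C) * Real.exp (-2 * t) := by
    rw [← Real.exp_add, ← Real.exp_add]
    apply Real.exp_le_exp.2
    nlinarith
  calc Real.exp (2 * (Real.exp 1 * (t + C))) * (N * Real.exp (-(8 * t)))
      = N * (Real.exp (2 * (Real.exp 1 * (t + C))) * Real.exp (-(8 * t))) := by ring
    _ ≤ N * (Real.exp (6 * C) * Real.exp (-2 * t)) := mul_le_mul_of_nonneg_left h8 hN0.le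
    _ = Real.exp (6 * C) * N * Real.exp (-2 * t) := by ring

end Pool.Agent.H79.SP
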