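import Pool.Agent.H79.SP.Geo
import Pool.Agent.H79.SP.Rho
import Pool.Agent.H79.SP.Smo

set_option autoImplicit false

/-!
# Primes `p` such that `p - 1 = q a` with a large prime `q` and `a` in a given set
-/

namespace Pool.Agent.H79.SP

open Finset Pool.Agent.H75.AP Pool.Agent.H5.W ArithmeticFunction

/-- Primes `p ≤ N` such that `p - 1 = q a` with a prime `q > exp z` and `a` in a given set `A`. -/
theorem gen : ∃ C : ℝ, 0 < C ∧ ∀ (N : ℕ) (t : ℝ), 21 ≤ N → t = Real.log (Real.log N) → 1 ≤ t →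
    1000 * t ^ 2 ≤ Real.exp t → ∀ B A : Finset ℕ, (∀ p ∈ B, p ≤ N ∧ p.Prime) →
    (∀ p ∈ B, ∀ q a : ℕ, q.Prime → Real.exp (Real.log N / (8 * t)) < q → p - 1 = q * a → a ∈ A) →
    (B.card : ℝ) ≤ C * N * (t ^ 4 * Real.exp (-2 * t) * (∑ a ∈ A, 1 / (a : ℝ)) +
      Real.exp (-2 * t)) := by
  obtain ⟨C1, hC1, hsm⟩ := smooth
  obtain ⟨C2, hC2, hps⟩ := pair_sieve
  obtain ⟨C3, hC3, hrho⟩ := rho_small
  refine ⟨C1 + C2 * C3 ^ 2 * 128 ^ 2 + 1, by positivity, ?_⟩
  intro N t hN ht ht1 ht2 B A' hB hA'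
  have hN0 : (0 : ℝ) < N := by positivity
  have hlog : 0 < Real.log N := Real.log_pos (by exact_mod_cast (by omega : 1 < N))
  have hexp : Real.exp t = Real.log N := by rw [ht, Real.exp_log hlog]
  set z := Real.log N / (8 * t) with hz
  have hz0 : 125 * t ≤ z := by
    rw [hz, le_div_iff₀ (by positivity), ← hexp]
    nlinarith
  have hz1 : 125 ≤ z := by nlinarith
  classical
  -- the first part
  have hB1 : ((B.filter (fun p => ∀ q : ℕ, q.Prime → q ∣ p - 1 → (q : ℝ) ≤ Real.exp z)).card : ℝ) ≤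
      C1 * N * Real.exp (-2 * t) := by
    set B1 := B.filter (fun p => ∀ q : ℕ, q.Prime → q ∣ p - 1 → (q : ℝ) ≤ Real.exp z) with hB1
    have h1 : (B1.image (fun p => p - 1)).card = B1.card := by
      refine card_image_of_injOn ?_
      intro p hp p' hp' hpp
      have h2 : p.Prime := (hB p (mem_filter.1 (mem_coe.1 hp)).1).2
      have h3 : p'.Prime := (hB p' (mem_filter.1 (mem_coe.1 hp')).1).2
      have h4 := h2.two_le
      have h5 := h3.two_le
      simp only at hpp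
      omega
    rw [← h1]
    refine hsm N t (by omega) ht ht1 ht2 _ ?_
    intro n hn
    obtain ⟨p, hp, rfl⟩ := mem_image.1 hn
    obtain ⟨h2, h3⟩ := mem_filter.1 hp
    obtain ⟨h4, h5⟩ := hB p h2
    have h6 := h5.two_le
    exact ⟨by omega, by omega, h3⟩
  -- the second part
  set A := (Ioc 0 ⌊(N : ℝ) / Real.exp z⌋₊).filter (fun a => a ∈ A') with hA
  set S : ℕ → Finset ℕ := fun a => (Ioc 0 N).filter (fun p => p.Prime ∧ ∃ q : ℕ, q.Prime ∧
    Real.exp z < q ∧ p = 1 + q * a) with hS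
  have hsub : B.filter (fun p => ¬ ∀ q : ℕ, q.Prime → q ∣ p - 1 → (q : ℝ) ≤ Real.exp z) ⊆
      A.biUnion S := by
    intro p hp
    obtain ⟨h1, h2⟩ := mem_filter.1 hp
    obtain ⟨h3, h4⟩ := hB p h1
    push Not at h2
    obtain ⟨q, hq, ⟨a, ha⟩, hqz⟩ := h2
    have hp2 := h4.two_le
    have ha0 : a ≠ 0 := by
      rintro rfl
      rw [mul_zero] at ha
      omega
    have h6 : (a : ℝ) ≤ N / Real.exp z := by
      rw [le_div_iff₀ (Real.exp_pos _)]
      have h7 : ((q * a : ℕ) : ℝ) ≤ N := by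
        rw [← ha]
        exact_mod_cast (by omega : p - 1 ≤ N)
      push_cast at h7
      nlinarith [Nat.cast_nonneg (α := ℝ) a]
    rw [mem_biUnion]
    refine ⟨a, ?_, ?_⟩
    · rw [hA, mem_filter, mem_Ioc]
      exact ⟨⟨Nat.pos_of_ne_zero ha0, Nat.le_floor h6⟩, hA' p h1 q a hq hqz ha⟩
    · rw [hS, mem_filter, mem_Ioc]
      exact ⟨⟨h4.pos, h3⟩, h4, q, hq, hqz, by omega⟩
  set J := ⌊Real.exp (z / 8)⌋₊ with hJ
  have he16 : 2 ≤ Real.exp (z / 16) := by
    have := Real.add_one_le_exp (z / 16)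
    linarith
  have he8 : Real.exp (z / 8) = Real.exp (z / 16) * Real.exp (z / 16) := by
    rw [← Real.exp_add]; congr 1; ring
  have hJ1 : Real.exp (z / 16) ≤ J := by
    have h1 := Nat.lt_floor_add_one (Real.exp (z / 8))
    rw [← hJ] at h1
    nlinarith
  have hJ2 : (J : ℝ) ≤ Real.exp (z / 8) := Nat.floor_le (Real.exp_pos _).le
  have hJ3 : 2 ≤ J := by exact_mod_cast he16.trans hJ1
  have hlogJ : z / 16 ≤ Real.log J := by
    rw [Real.le_log_iff_exp_le (by positivity)]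
    exact hJ1
  have hJ4 : (J : ℝ) ^ 4 ≤ Real.exp (z / 2) := by
    have h1 : Real.exp (z / 2) = Real.exp (z / 8) ^ 4 := by
      rw [← Real.exp_nat_mul]; congr 1; push_cast; ring
    rw [h1]
    exact pow_le_pow_left₀ (Nat.cast_nonneg _) hJ2 4
  have ht0 : 0 ≤ t := by linarith
  have hSa : ∀ a ∈ A, ((S a).card : ℝ) ≤
      C2 * N * (C3 * t) ^ 2 / (z / 16) ^ 2 * (1 / (a : ℝ)) + Real.exp (z / 2) := by
    intro a ha
    rw [hA, mem_filter, mem_Ioc] at ha
    obtain ⟨⟨ha0, haN⟩, -⟩ := ha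
    have haN' : a ≤ N := by
      have h1 : ⌊(N : ℝ) / Real.exp z⌋₊ ≤ N := by
        refine Nat.floor_le_of_le ?_
        exact div_le_self hN0.le (Real.one_le_exp (by linarith))
      omega
    have h1 := hps J 1 0 a 1 N hJ3 ha0 one_pos (by norm_num) (S a) (by
      intro v hv
      rw [hS, mem_filter, mem_Ioc] at hv
      obtain ⟨⟨h2, h3⟩, h4, q, hq, hqz, hv⟩ := hv
      have h5 : J < q := by
        have h6 : (J : ℝ) < q := lt_of_le_of_lt (hJ2.trans (Real.exp_le_exp.2 (by linarith))) hqz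
        exact_mod_cast h6
      refine ⟨h2, h3, q, v, hq, h4, h5, ?_, hv, by omega⟩
      have h7 : q ≤ q * a := Nat.le_mul_of_pos_right q ha0
      omega)
    have hE : EE 1 0 a 1 = 2 * a := by
      unfold EE
      simp
    rw [hE, Nat.gcd_one_right] at h1
    have h2 := hrho N J (2 * a) (by omega) (by omega) hN
    rw [← ht] at h2
    have h3 : 0 ≤ rhoz J (2 * a) := by unfold rhoz; positivity
    have h4 : rhoz J (2 * a) ^ 2 ≤ (C3 * t) ^ 2 := pow_le_pow_left₀ h3 h2 2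
    have h5 : (z / 16) ^ 2 ≤ Real.log J ^ 2 := pow_le_pow_left₀ (by linarith) hlogJ 2
    refine h1.trans (add_le_add ?_ hJ4)
    have ha1 : (0 : ℝ) < a := by exact_mod_cast ha0
    calc C2 * ((N : ℝ) * ((1 : ℕ) : ℝ) / (a * ((1 : ℕ) : ℝ))) * rhoz J (2 * a) ^ 2 / Real.log J ^ 2
        ≤ C2 * ((N : ℝ) * ((1 : ℕ) : ℝ) / (a * ((1 : ℕ) : ℝ))) * (C3 * t) ^ 2 / (z / 16) ^ 2 := by
          apply div_le_div₀ (by positivity) _ (by positivity) h5
          exact mul_le_mul_of_nonneg_left h4 (by positivity)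
      _ = C2 * N * (C3 * t) ^ 2 / (z / 16) ^ 2 * (1 / (a : ℝ)) := by
          push_cast
          field_simp
  have hA1 : ∑ a ∈ A, 1 / (a : ℝ) ≤ ∑ a ∈ A', 1 / (a : ℝ) := by
    refine sum_le_sum_of_subset_of_nonneg ?_ fun _ _ _ => by positivity
    intro a ha
    rw [hA, mem_filter] at ha
    exact ha.2
  have hA2 : (A.card : ℝ) ≤ N * Real.exp (-z) := by
    have h1 : A.card ≤ ⌊(N : ℝ) / Real.exp z⌋₊ := by
      refine (card_filter_le _ _).trans ?_
      rw [Nat.card_Ioc, Nat.sub_zero]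
    have h2 : (A.card : ℝ) ≤ N / Real.exp z :=
      (Nat.cast_le.2 h1).trans (Nat.floor_le (by positivity))
    rwa [Real.exp_neg, ← div_eq_mul_inv]
  have hB2 : ((B.filter (fun p => ¬ ∀ q : ℕ, q.Prime → q ∣ p - 1 → (q : ℝ) ≤ Real.exp z)).card : ℝ)
      ≤ C2 * N * (C3 * t) ^ 2 / (z / 16) ^ 2 * (∑ a ∈ A', 1 / (a : ℝ)) +
        N * Real.exp (-2 * t) := by
    have h1 : ((B.filter (fun p => ¬ ∀ q : ℕ, q.Prime → q ∣ p - 1 → (q : ℝ) ≤ Real.exp z)).card : ℝ)
        ≤ ∑ a ∈ A, ((S a).card : ℝ) := by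
      have h2 := (card_le_card hsub).trans card_biUnion_le
      exact_mod_cast h2
    refine h1.trans ((sum_le_sum hSa).trans ?_)
    rw [sum_add_distrib, ← mul_sum, sum_const, nsmul_eq_mul]
    refine add_le_add (mul_le_mul_of_nonneg_left hA1 (by positivity)) ?_
    calc (A.card : ℝ) * Real.exp (z / 2) ≤ N * Real.exp (-z) * Real.exp (z / 2) :=
          mul_le_mul_of_nonneg_right hA2 (Real.exp_pos _).le
      _ = N * Real.exp (-(z / 2)) := by
          rw [mul_assoc, ← Real.exp_add]; congr 2; ring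
      _ ≤ N * Real.exp (-2 * t) :=
          mul_le_mul_of_nonneg_left (Real.exp_le_exp.2 (by linarith)) hN0.le
  have hz3 : (z / 16) ^ 2 = Real.exp (2 * t) / (128 * t) ^ 2 := by
    have h1 : Real.exp (2 * t) = Real.log N ^ 2 := by
      rw [← hexp, ← Real.exp_nat_mul]; push_cast; rfl
    rw [h1, hz]
    field_simp
    ring
  have hmain : C2 * N * (C3 * t) ^ 2 / (z / 16) ^ 2 * (∑ a ∈ A', 1 / (a : ℝ)) =
      C2 * C3 ^ 2 * 128 ^ 2 * (N * (t ^ 4 * Real.exp (-2 * t) * (∑ a ∈ A', 1 / (a : ℝ)))) := by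
    rw [hz3]
    have h1 : Real.exp (-2 * t) = 1 / Real.exp (2 * t) := by
      rw [one_div, ← Real.exp_neg]; congr 1; ring
    rw [h1]
    have h2 := Real.exp_pos (2 * t)
    field_simp
  have hcard : (B.card : ℝ) =
      (B.filter (fun p => ∀ q : ℕ, q.Prime → q ∣ p - 1 → (q : ℝ) ≤ Real.exp z)).card +
      (B.filter (fun p => ¬ ∀ q : ℕ, q.Prime → q ∣ p - 1 → (q : ℝ) ≤ Real.exp z)).card := by
    exact_mod_cast (card_filter_add_card_filter_not (s := B)
      (fun p => ∀ q : ℕ, q.Prime → q ∣ p - 1 → (q : ℝ) ≤ Real.exp z)).symm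
  rw [hcard]
  rw [hmain] at hB2
  have hX : 0 ≤ t ^ 4 * Real.exp (-2 * t) * (∑ a ∈ A', 1 / (a : ℝ)) := by positivity
  have hY : 0 ≤ Real.exp (-2 * t) := by positivity
  set X := t ^ 4 * Real.exp (-2 * t) * (∑ a ∈ A', 1 / (a : ℝ))
  set Y := Real.exp (-2 * t)
  have hD : 0 ≤ C2 * C3 ^ 2 * 128 ^ 2 := by positivity
  set D := C2 * C3 ^ 2 * 128 ^ 2
  have h1 : 0 ≤ C1 * (N * X) := by positivity
  have h2 : 0 ≤ D * (N * Y) := by positivity
  have h3 : 0 ≤ N * X := by positivity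
  calc _ ≤ C1 * N * Y + (D * (N * X) + N * Y) := add_le_add hB1 hB2
    _ ≤ (C1 + D + 1) * N * (X + Y) := by nlinarith

/-- Few primes `p ≤ N` such that `p - 1` has more than `k` prime factors. -/
theorem mom : ∃ C : ℝ, 0 < C ∧ ∀ (N : ℕ) (t : ℝ), 21 ≤ N → t = Real.log (Real.log N) → 1 ≤ t →
    1000 * t ^ 2 ≤ Real.exp t → ∀ (z : ℝ) (k : ℕ), 1 ≤ z → z ≤ 3 / 2 →
    (((Ioc 0 N).filter (fun p => p.Prime ∧ k < cardFactors (p - 1))).card : ℝ) ≤
      C * N * (t ^ 4 * Real.exp ((z - 2) * t) * z⁻¹ ^ k + Real.exp (-2 * t)) := by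
  obtain ⟨C, hC, hgen⟩ := gen
  obtain ⟨K, hK, hgeo⟩ := geo
  refine ⟨C * K + C, by positivity, ?_⟩
  intro N t hN ht ht1 ht2 z k hz1 hz2
  have hN0 : (0 : ℝ) < N := by positivity
  have hz0 : 0 < z := by linarith
  have h0 := hgen N t hN ht ht1 ht2
    ((Ioc 0 N).filter (fun p => p.Prime ∧ k < cardFactors (p - 1)))
    ((Ioc 0 N).filter (fun a => k ≤ cardFactors a)) ?_ ?_
  · have hA1 : ∑ a ∈ (Ioc 0 N).filter (fun a => k ≤ cardFactors a), 1 / (a : ℝ) ≤
        z⁻¹ ^ k * (K * Real.exp (z * t)) := by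
      have h1 := hgeo z N (by linarith) hz2 (by omega)
      rw [← ht] at h1
      have h2 : ∑ a ∈ (Ioc 0 N).filter (fun a => k ≤ cardFactors a), 1 / (a : ℝ) ≤
          ∑ a ∈ (Ioc 0 N).filter (fun a => k ≤ cardFactors a),
            z⁻¹ ^ k * (z ^ cardFactors a / (a : ℝ)) := by
        refine sum_le_sum fun a ha => ?_
        rw [mem_filter, mem_Ioc] at ha
        have ha1 : (0 : ℝ) < a := by exact_mod_cast ha.1.1
        have h3 : (1 : ℝ) ≤ z⁻¹ ^ k * z ^ cardFactors a := by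
          have h4 : z⁻¹ ^ k * z ^ k = 1 := by
            rw [← mul_pow, inv_mul_cancel₀ (by linarith), one_pow]
          rw [← h4]
          exact mul_le_mul_of_nonneg_left (pow_le_pow_right₀ hz1 ha.2) (by positivity)
        rw [← mul_div_assoc]
        exact div_le_div_of_nonneg_right h3 ha1.le
      refine h2.trans ?_
      rw [← mul_sum]
      refine mul_le_mul_of_nonneg_left (le_trans ?_ h1) (by positivity)
      refine sum_le_sum_of_subset_of_nonneg ?_ fun _ _ _ => by positivity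
      intro a ha
      rw [mem_filter, mem_Ioc] at ha
      rw [mem_Icc]
      omega
    refine h0.trans ?_
    have h1 : Real.exp ((z - 2) * t) = Real.exp (-2 * t) * Real.exp (z * t) := by
      rw [← Real.exp_add]; congr 1; ring
    calc C * N * (t ^ 4 * Real.exp (-2 * t) *
          (∑ a ∈ (Ioc 0 N).filter (fun a => k ≤ cardFactors a), 1 / (a : ℝ)) +
            Real.exp (-2 * t))
        ≤ C * N * (t ^ 4 * Real.exp (-2 * t) * (z⁻¹ ^ k * (K * Real.exp (z * t))) +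
            Real.exp (-2 * t)) := by gcongr
      _ = C * K * (N * (t ^ 4 * Real.exp ((z - 2) * t) * z⁻¹ ^ k)) +
            C * (N * Real.exp (-2 * t)) := by rw [h1]; ring
      _ ≤ C * K * (N * (t ^ 4 * Real.exp ((z - 2) * t) * z⁻¹ ^ k)) +
            C * (N * Real.exp (-2 * t)) +
            (C * (N * (t ^ 4 * Real.exp ((z - 2) * t) * z⁻¹ ^ k)) +
              C * K * (N * Real.exp (-2 * t))) := le_add_of_nonneg_right (by positivity)
      _ = _ := by ring
  · intro p hp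
    rw [mem_filter, mem_Ioc] at hp
    exact ⟨hp.1.2, hp.2.1⟩
  · intro p hp q a hq _ hqa
    rw [mem_filter, mem_Ioc] at hp
    obtain ⟨⟨h1, h2⟩, h3, h4⟩ := hp
    have hp2 := h3.two_le
    have ha0 : a ≠ 0 := by
      rintro rfl
      rw [mul_zero] at hqa
      omega
    rw [hqa, cardFactors_mul hq.ne_zero ha0, cardFactors_apply_prime hq] at h4
    have h5 : a ≤ q * a := Nat.le_mul_of_pos_left a hq.pos
    rw [mem_filter, mem_Ioc]
    exact ⟨⟨Nat.pos_of_ne_zero ha0, by omega⟩, by omega⟩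

end Pool.Agent.H79.SP
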