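import Pool.Agent.H75.AP.MertensB

set_option autoImplicit false

/-!
# Sums of `z ^ Ω(n) / n` and of `2 ^ (-Ω(n))`
-/

namespace Pool.Agent.H79.SP

open Finset Pool.Agent.H75.AP ArithmeticFunction

private theorem inv_le (t : ℝ) (h1 : t ≤ 3 / 4) :
    (1 - t)⁻¹ ≤ Real.exp (t + 4 * t ^ 2) := by
  have h2 : 0 < 1 - t := by linarith
  have h3 : (1 - t)⁻¹ ≤ Real.exp ((1 - t)⁻¹ - 1) := by
    have := Real.add_one_le_exp ((1 - t)⁻¹ - 1)
    linarith
  refine h3.trans (Real.exp_le_exp.2 ?_)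
  have h4 : (1 - t)⁻¹ - 1 = t + t ^ 2 * (1 - t)⁻¹ := by
    field_simp
    ring
  rw [h4]
  have h5 : (1 - t)⁻¹ ≤ 4 := by
    rw [inv_le_comm₀ h2 (by norm_num)]
    linarith
  nlinarith [sq_nonneg t]

/-- `z ^ Ω(n) / n` as a monoid homomorphism -/
private noncomputable def fz (z : ℝ) : ℕ →* ℝ where
  toFun n := if n = 0 then 0 else z ^ cardFactors n / n
  map_one' := by simp
  map_mul' m n := by
    rcases eq_or_ne m 0 with hm | hm
    · simp [hm]
    rcases eq_or_ne n 0 with hn | hn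
    · simp [hn]
    rw [if_neg (mul_ne_zero hm hn), if_neg hm, if_neg hn, cardFactors_mul hm hn, pow_add]
    push_cast
    rw [mul_div_mul_comm]

private theorem fz_apply (z : ℝ) (n : ℕ) (hn : n ≠ 0) : fz z n = z ^ cardFactors n / n := by
  change (if n = 0 then 0 else _) = _
  rw [if_neg hn]

private theorem sum_sq (N : ℕ) :
    ∑ p ∈ (range (N + 1)).filter Nat.Prime, (1 : ℝ) / (p : ℝ) ^ 2 ≤ (1 : ℝ) := by
  have h : ∀ n : ℕ, ∑ p ∈ Icc 2 (n + 1), (1 : ℝ) / (p : ℝ) ^ 2 ≤ (1 : ℝ) - 1 / ((n : ℝ) + 1) := by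
    intro n
    induction n with
    | zero => simp
    | succ n ih =>
      rw [Finset.sum_Icc_succ_top (by omega)]
      have h1 : (0 : ℝ) < n + 1 := by positivity
      have h2 : (1 : ℝ) / ((n + 1 + 1 : ℕ) : ℝ) ^ 2 ≤ 1 / (n + 1) - 1 / ((n + 1 : ℕ) + 1) := by
        push_cast
        rw [div_sub_div _ _ (by positivity) (by positivity), div_le_div_iff₀ (by positivity) (by positivity)]
        nlinarith
      linarith
  have h1 : (range (N + 1)).filter Nat.Prime ⊆ Icc 2 (N + 1) := by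
    intro p hp
    rw [mem_filter, mem_range] at hp
    rw [mem_Icc]
    exact ⟨hp.2.two_le, by omega⟩
  refine (sum_le_sum_of_subset_of_nonneg h1 fun _ _ _ => by positivity).trans ((h N).trans ?_)
  have : (0 : ℝ) ≤ 1 / (N + 1) := by positivity
  linarith

private theorem primes_eq (N : ℕ) : (range (N + 1)).filter Nat.Prime = PI 0 (N : ℝ) := by
  ext p
  unfold PI
  simp only [mem_filter, mem_range, Nat.floor_natCast]
  constructor
  · rintro ⟨h1, h2⟩
    exact ⟨h1, h2, by exact_mod_cast h2.pos⟩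
  · rintro ⟨h1, h2, -⟩
    exact ⟨h1, h2⟩

/-- **Sums of `z ^ Ω(n) / n`.** -/
theorem geo : ∃ K : ℝ, 0 < K ∧ ∀ (z : ℝ) (N : ℕ), 0 ≤ z → z ≤ 3 / 2 → 3 ≤ N →
    ∑ n ∈ Icc 1 N, z ^ cardFactors n / (n : ℝ) ≤ K * Real.exp (z * Real.log (Real.log N)) := by
  obtain ⟨C, hC, hM⟩ := mertens_upper
  refine ⟨Real.exp (3 / 2 * C + 9), Real.exp_pos _, ?_⟩
  intro z N hz0 hz1 hN
  have hp2 : ∀ {p : ℕ}, p.Prime → fz z p = z / p := by
    intro p hp
    rw [fz_apply z p hp.ne_zero, cardFactors_apply_prime hp, pow_one]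
  have hle : ∀ {p : ℕ}, p.Prime → 0 ≤ z / (p : ℝ) ∧ z / (p : ℝ) ≤ 3 / 4 := by
    intro p hp
    have h2 : (2 : ℝ) ≤ p := by exact_mod_cast hp.two_le
    refine ⟨by positivity, ?_⟩
    rw [div_le_iff₀ (by positivity)]
    linarith
  have h1 : ∀ {p : ℕ}, p.Prime → ‖fz z p‖ < 1 := by
    intro p hp
    rw [hp2 hp, Real.norm_of_nonneg (hle hp).1]
    have := (hle hp).2
    linarith
  obtain ⟨_, h2⟩ := EulerProduct.summable_and_hasSum_factoredNumbers_prod_filter_prime_geometric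
    (f := fz z) h1 (range (N + 1))
  have h3 : ∑ n ∈ Icc 1 N, z ^ cardFactors n / (n : ℝ) ≤
      ∏ p ∈ range (N + 1) with p.Prime, (1 - fz z p)⁻¹ := by
    have hmem : ∀ m ∈ Icc 1 N, m ∈ Nat.factoredNumbers (range (N + 1)) := by
      intro m hm
      rw [mem_Icc] at hm
      rw [Nat.mem_factoredNumbers']
      intro p _ hpm
      rw [mem_range]
      exact lt_of_le_of_lt (Nat.le_of_dvd (by omega) hpm) (by omega)
    have h4 := Finset.sum_subtype_of_mem (fun m : ℕ => fz z m)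
      (p := fun m => m ∈ Nat.factoredNumbers (range (N + 1))) hmem
    have h5 : ∑ n ∈ Icc 1 N, z ^ cardFactors n / (n : ℝ) = ∑ n ∈ Icc 1 N, fz z n :=
      sum_congr rfl fun n hn => by
        rw [mem_Icc] at hn
        rw [fz_apply z n (by omega)]
    rw [h5, ← h4]
    refine sum_le_hasSum _ (fun m _ => ?_) h2
    have hm0 : (m : ℕ) ≠ 0 := Nat.ne_zero_of_mem_factoredNumbers m.2
    rw [fz_apply z _ hm0]
    positivity
  refine h3.trans ?_
  have h6 : ∏ p ∈ range (N + 1) with p.Prime, (1 - fz z p)⁻¹ ≤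
      ∏ p ∈ range (N + 1) with p.Prime, Real.exp (z / p + 4 * (z / p) ^ 2) := by
    apply Finset.prod_le_prod
    · intro p hp
      rw [mem_filter] at hp
      rw [hp2 hp.2, inv_nonneg]
      have := (hle hp.2).2
      linarith
    · intro p hp
      rw [mem_filter] at hp
      rw [hp2 hp.2]
      exact inv_le _ (hle hp.2).2
  refine h6.trans ?_
  rw [← Real.exp_sum, ← Real.exp_add]
  apply Real.exp_le_exp.2
  have h7 : ∑ p ∈ range (N + 1) with p.Prime, (z / (p : ℝ) + 4 * (z / p) ^ 2) =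
      z * ∑ p ∈ range (N + 1) with p.Prime, 1 / (p : ℝ) +
        4 * z ^ 2 * ∑ p ∈ range (N + 1) with p.Prime, 1 / (p : ℝ) ^ 2 := by
    rw [sum_add_distrib, mul_sum, mul_sum]
    congr 1
    · exact sum_congr rfl fun p _ => by ring
    · exact sum_congr rfl fun p _ => by ring
  rw [h7]
  have h8 := sum_sq N
  have h9 := hM (N : ℝ) (by exact_mod_cast hN)
  rw [← primes_eq] at h9
  have h10 : z * ∑ p ∈ range (N + 1) with p.Prime, 1 / (p : ℝ) ≤
      z * (Real.log (Real.log N) + C) := mul_le_mul_of_nonneg_left h9 hz0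
  have h11 : 4 * z ^ 2 * ∑ p ∈ range (N + 1) with p.Prime, 1 / (p : ℝ) ^ 2 ≤ 9 := by
    have h12 : 4 * z ^ 2 ≤ 9 := by nlinarith
    have h13 : 0 ≤ ∑ p ∈ range (N + 1) with p.Prime, 1 / (p : ℝ) ^ 2 :=
      sum_nonneg fun _ _ => by positivity
    nlinarith
  have h14 : z * C ≤ 3 / 2 * C := mul_le_mul_of_nonneg_right hz1 hC.le
  linarith

end Pool.Agent.H79.SP
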