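import Pool.Agent.H79.SP.Geo

set_option autoImplicit false

/-!
# Sums of `w ^ Ω(n)`
-/

namespace Pool.Agent.H79.SP

open Finset ArithmeticFunction

/-- `w ^ Ω(n)` -/
noncomputable def hf (w : ℝ) : ArithmeticFunction ℝ :=
  ⟨fun n => if n = 0 then 0 else w ^ cardFactors n, by simp⟩

theorem hf_apply (w : ℝ) {n : ℕ} (hn : n ≠ 0) : hf w n = w ^ cardFactors n := by
  change (if n = 0 then 0 else _) = _
  rw [if_neg hn]

theorem hf_nonneg {w : ℝ} (hw : 0 ≤ w) (n : ℕ) : 0 ≤ hf w n := by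
  rcases eq_or_ne n 0 with h | h
  · rw [h, ArithmeticFunction.map_zero]
  · rw [hf_apply w h]; positivity

private theorem pt {w : ℝ} (hw : 0 ≤ w) (hw1 : w ≤ 1) (n : ℕ) (hn : n ≠ 0) :
    hf w n * Real.log n ≤ (hf w * vonMangoldt) n := by
  rw [ArithmeticFunction.mul_apply, ← vonMangoldt_sum, mul_sum,
    Nat.sum_divisorsAntidiagonal' (f := fun x y => hf w x * vonMangoldt y)]
  refine sum_le_sum fun d hd => ?_
  refine mul_le_mul_of_nonneg_right ?_ vonMangoldt_nonneg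
  obtain ⟨h1, -⟩ := Nat.mem_divisors.1 hd
  obtain ⟨m, rfl⟩ := h1
  have hd0 : d ≠ 0 := left_ne_zero_of_mul hn
  have hm0 : m ≠ 0 := right_ne_zero_of_mul hn
  rw [Nat.mul_div_cancel_left _ (Nat.pos_of_ne_zero hd0), hf_apply w hn, hf_apply w hm0,
    cardFactors_mul hd0 hm0]
  exact pow_le_pow_of_le_one hw hw1 (Nat.le_add_left _ _)

private theorem log_part {w : ℝ} (hw : 0 ≤ w) (hw1 : w ≤ 1) (N : ℕ) : ∑ n ∈ Ioc 0 N, hf w n * Real.log n ≤
    (Real.log 4 + 4) * N * ∑ n ∈ Ioc 0 N, hf w n / n := by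
  have h1 : ∑ n ∈ Ioc 0 N, hf w n * Real.log n ≤ ∑ n ∈ Ioc 0 N, (hf w * vonMangoldt) n :=
    sum_le_sum fun n hn => pt hw hw1 n (by rw [mem_Ioc] at hn; omega)
  refine h1.trans ?_
  rw [sum_Ioc_mul_eq_sum_sum, mul_sum]
  refine sum_le_sum fun n hn => ?_
  have hn0 : 0 < n := (mem_Ioc.1 hn).1
  have h2 : ∑ m ∈ Ioc 0 (N / n), vonMangoldt m ≤ (Real.log 4 + 4) * ((N / n : ℕ) : ℝ) := by
    have h3 := Chebyshev.psi_le_const_mul_self (x := ((N / n : ℕ) : ℝ)) (Nat.cast_nonneg _)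
    rwa [Chebyshev.psi, Nat.floor_natCast] at h3
  have h4 : ((N / n : ℕ) : ℝ) ≤ N / n := Nat.cast_div_le
  have h5 : 0 < Real.log 4 + 4 := by
    have := Real.log_nonneg (show (1 : ℝ) ≤ 4 by norm_num)
    linarith
  calc hf w n * ∑ m ∈ Ioc 0 (N / n), vonMangoldt m
      ≤ hf w n * ((Real.log 4 + 4) * (N / n)) := by
        refine mul_le_mul_of_nonneg_left (h2.trans ?_) (hf_nonneg hw n)
        exact mul_le_mul_of_nonneg_left h4 h5.le
    _ = (Real.log 4 + 4) * N * (hf w n / n) := by ring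

private theorem rest_part {w : ℝ} (hw : 0 ≤ w) (N : ℕ) : ∑ n ∈ Ioc 0 N, hf w n * Real.log (N / n) ≤
    N * ∑ n ∈ Ioc 0 N, hf w n / n := by
  rw [mul_sum]
  refine sum_le_sum fun n hn => ?_
  obtain ⟨h1, h2⟩ := mem_Ioc.1 hn
  have h3 : (0 : ℝ) < n := by exact_mod_cast h1
  have h4 : (0 : ℝ) < N := by exact_mod_cast lt_of_lt_of_le h1 h2
  have h5 : Real.log (N / n) ≤ N / n := (Real.log_le_sub_one_of_pos (by positivity)).trans (by linarith)
  calc hf w n * Real.log (N / n) ≤ hf w n * (N / n) := mul_le_mul_of_nonneg_left h5 (hf_nonneg hw n)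
    _ = N * (hf w n / n) := by ring

/-- **Sums of `w ^ Ω(n)`.** -/
theorem hall : ∃ K : ℝ, 0 < K ∧ ∀ (w : ℝ) (N : ℕ), 0 ≤ w → w ≤ 1 → 3 ≤ N →
    ∑ n ∈ Ioc 0 N, hf w n ≤ K * N * Real.exp (-(1 - w) * Real.log (Real.log N)) := by
  obtain ⟨K, hK, h⟩ := geo
  have hl4 := Real.log_nonneg (show (1 : ℝ) ≤ 4 by norm_num)
  refine ⟨(Real.log 4 + 5) * K, by positivity, ?_⟩
  intro w N hw hw1 hN
  have hN0 : (0 : ℝ) < N := by positivity
  have hlog : 0 < Real.log N := Real.log_pos (by exact_mod_cast (by omega : 1 < N))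
  have h1 : Real.log N * ∑ n ∈ Ioc 0 N, hf w n =
      ∑ n ∈ Ioc 0 N, hf w n * Real.log n + ∑ n ∈ Ioc 0 N, hf w n * Real.log (N / n) := by
    rw [mul_sum, ← sum_add_distrib]
    refine sum_congr rfl fun n hn => ?_
    have h3 : (n : ℝ) ≠ 0 := by
      have := (mem_Ioc.1 hn).1
      positivity
    rw [Real.log_div hN0.ne' h3]
    ring
  have h2 : ∑ n ∈ Ioc 0 N, hf w n / n ≤ K * Real.exp (w * Real.log (Real.log N)) := by
    have h3 := h w N hw (by linarith) hN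
    refine le_trans (le_of_eq ?_) h3
    refine sum_congr ?_ fun n hn => ?_
    · ext n; simp [mem_Ioc, mem_Icc, Nat.succ_le_iff]
    · rw [mem_Icc] at hn
      rw [hf_apply w (by omega)]
  have h4 : Real.log N * ∑ n ∈ Ioc 0 N, hf w n ≤
      (Real.log 4 + 5) * N * (K * Real.exp (w * Real.log (Real.log N))) := by
    rw [h1]
    have h5 := log_part hw hw1 N
    have h6 := rest_part hw N
    have h7 : (Real.log 4 + 5) * N * ∑ n ∈ Ioc 0 N, hf w n / n ≤
        (Real.log 4 + 5) * N * (K * Real.exp (w * Real.log (Real.log N))) :=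
      mul_le_mul_of_nonneg_left h2 (by positivity)
    calc _ ≤ (Real.log 4 + 4) * N * ∑ n ∈ Ioc 0 N, hf w n / n + N * ∑ n ∈ Ioc 0 N, hf w n / n :=
          add_le_add h5 h6
      _ = (Real.log 4 + 5) * N * ∑ n ∈ Ioc 0 N, hf w n / n := by ring
      _ ≤ _ := h7
  have h8 : Real.exp (w * Real.log (Real.log N)) =
      Real.log N * Real.exp (-(1 - w) * Real.log (Real.log N)) := by
    nth_rewrite 2 [← Real.exp_log hlog]
    rw [← Real.exp_add]
    congr 1
    ring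
  rw [h8] at h4
  have h9 : Real.log N * ∑ n ∈ Ioc 0 N, hf w n ≤ Real.log N *
      ((Real.log 4 + 5) * K * N * Real.exp (-(1 - w) * Real.log (Real.log N))) := by
    refine h4.trans (le_of_eq (by ring))
  exact le_of_mul_le_mul_left h9 hlog

end Pool.Agent.H79.SP
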